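import Mathlib

set_option autoImplicit false

open Real Set MeasureTheory Topology Filter
open scoped ENNReal NNReal

namespace Pool.Agent.MP_ccb05f_an

/-! ### Lipschitz calculus with real constants -/

/-- `f` is Lipschitz with real constant `L`. -/
def Lp {α : Type*} [PseudoMetricSpace α] (L : ℝ) (f : α → ℝ) : Prop :=
  ∀ p q, |f p - f q| ≤ L * dist p q

section
variable {α : Type*} [PseudoMetricSpace α] {L M : ℝ} {f g : α → ℝ}

theorem Lp.mono (h : Lp L f) (hLM : L ≤ M) : Lp M f := fun p q =>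
  (h p q).trans (mul_le_mul_of_nonneg_right hLM dist_nonneg)

theorem Lp.const (c : ℝ) : Lp 0 (fun _ : α => c) := fun p q => by simp

theorem Lp.add (hf : Lp L f) (hg : Lp M g) : Lp (L + M) (fun p => f p + g p) := fun p q => by
  have h : f p + g p - (f q + g q) = (f p - f q) + (g p - g q) := by ring
  rw [h, add_mul]
  exact (abs_add_le _ _).trans (add_le_add (hf p q) (hg p q))

theorem Lp.const_mul (c : ℝ) (hf : Lp L f) : Lp (|c| * L) (fun p => c * f p) := fun p q => by
  rw [← mul_sub, abs_mul, mul_assoc]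
  exact mul_le_mul_of_nonneg_left (hf p q) (abs_nonneg c)

theorem Lp.max (hf : Lp L f) (hg : Lp L g) : Lp L (fun p => max (f p) (g p)) := fun p q =>
  (abs_max_sub_max_le_max _ _ _ _).trans (max_le (hf p q) (hg p q))

theorem Lp.min (hf : Lp L f) (hg : Lp L g) : Lp L (fun p => min (f p) (g p)) := fun p q =>
  (abs_min_sub_min_le_max _ _ _ _).trans (max_le (hf p q) (hg p q))

theorem Lp.nonneg_of {p q : α} (hf : Lp L f) (h : 0 < dist p q) : 0 ≤ L := by
  have := (abs_nonneg _).trans (hf p q)
  by_contra hL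
  push Not at hL
  have := mul_neg_of_neg_of_pos hL h
  linarith

theorem Lp.comp {β : Type*} [PseudoMetricSpace β] {h : β → α} {c : ℝ} (hL : 0 ≤ L) (hf : Lp L f)
    (hh : ∀ p q, dist (h p) (h q) ≤ c * dist p q) : Lp (L * c) (fun p => f (h p)) := fun p q =>
  (hf (h p) (h q)).trans (by
    rw [mul_assoc]
    exact mul_le_mul_of_nonneg_left (hh p q) hL)

theorem Lp.continuous (hf : Lp L f) : Continuous f := by
  have : LipschitzWith L.toNNReal f := LipschitzWith.of_dist_le_mul fun p q => by
    rw [Real.dist_eq]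
    refine (hf p q).trans (mul_le_mul_of_nonneg_right ?_ dist_nonneg)
    rw [Real.coe_toNNReal']
    exact le_max_left _ _
  exact this.continuous
end

theorem Lp_coord {ι : Type*} [Fintype ι] (i : ι) : Lp 1 (fun q : ι → ℝ => q i) := fun p q => by
  rw [one_mul, ← Real.dist_eq]
  exact dist_le_pi_dist p q i

theorem Lp_infDist (S : Set ℝ) : Lp 1 (fun y : ℝ => Metric.infDist y S) := fun p q => by
  rw [one_mul, ← Real.dist_eq]
  have := (Metric.lipschitz_infDist_pt S).dist_le_mul p q
  simpa using this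

/-! ### The cost lemma -/

variable {m : ℕ}

/-- The ambient coordinate space. -/
abbrev V (m : ℕ) : Type := Fin (m + 3) → ℝ

/-- The unit cube. -/
def cubeV (m : ℕ) : Set (V m) := {q | ∀ i, q i ∈ Icc (0 : ℝ) 1}

theorem volume_slab (j : Fin (m + 3)) (T : Set ℝ) :
    volume {q : V m | q ∈ cubeV m ∧ q j ∈ T} ≤ volume T := by
  have hsub : {q : V m | q ∈ cubeV m ∧ q j ∈ T} ⊆
      Set.pi univ (fun i => if i = j then T else Icc (0 : ℝ) 1) := by
    rintro q ⟨h1, h2⟩ i _
    by_cases h : i = j
    · simp only [h, if_true]; exact h2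
    · simp only [h, if_false]; exact h1 i
  refine (measure_mono hsub).trans ?_
  rw [volume_pi_pi]
  have : ∀ i : Fin (m + 3), volume (if i = j then T else Icc (0 : ℝ) 1) =
      if i = j then volume T else 1 := by
    intro i
    split_ifs
    · rfl
    · simp
  simp only [this, Finset.prod_ite_eq', Finset.mem_univ, if_true, le_refl]

theorem cost {Z : Type*} [MetricSpace Z] [MeasurableSpace Z] [BorelSpace Z]
    (f : V m → Z) {L : ℝ} (hf : ∀ p q, dist (f p) (f q) ≤ L * dist p q)
    (j : Fin (m + 3)) (T : Set ℝ) :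
    μH[((m + 3 : ℕ) : ℝ)] (f '' {q | q ∈ cubeV m ∧ q j ∈ T}) ≤
      ENNReal.ofReal L ^ (m + 3) * volume T := by
  have hlip : LipschitzWith L.toNNReal f := LipschitzWith.of_dist_le_mul fun p q => by
    refine (hf p q).trans (mul_le_mul_of_nonneg_right ?_ dist_nonneg)
    rw [Real.coe_toNNReal']
    exact le_max_left _ _
  have h1 := hlip.hausdorffMeasure_image_le (d := ((m + 3 : ℕ) : ℝ)) (by positivity)
    {q | q ∈ cubeV m ∧ q j ∈ T}
  refine h1.trans ?_
  have h2 : (μH[((m + 3 : ℕ) : ℝ)] : Measure (V m)) = volume := by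
    have := hausdorffMeasure_pi_real (ι := Fin (m + 3))
    rw [Fintype.card_fin] at this
    exact this
  rw [h2, ENNReal.rpow_natCast]
  exact mul_le_mul' le_rfl (volume_slab j T)

end Pool.Agent.MP_ccb05f_an
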