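import Pool.Agent.MP_ccb05f_an.Digits
import Pool.Agent.MP_ccb05f_an.Cost

set_option autoImplicit false

open Real Set MeasureTheory Topology Filter
open scoped ENNReal NNReal

namespace Pool.Agent.MP_ccb05f_an

/-! ### Choice of parameters -/

/-- The conditions on the width `δ` and the thickness `ρ` at stage `n`, when the Lipschitz
constant reached so far is `L`. -/
def Good (m n : ℕ) (L δ ρ : ℝ) : Prop :=
  0 < δ ∧ 0 < ρ ∧ (1 ≤ L → δ ≤ gap n ∧ ρ ≤ 1 / L ∧
    ENNReal.ofReal (L + 1) ^ (m + 3) * volume (Metric.thickening δ (St n)) ≤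
      ENNReal.ofReal ((1 / 2) ^ n) ∧
    (L + 1 / δ) ^ (m + 3) * ρ ≤ (1 / 2) ^ n)

theorem exists_params (m n : ℕ) (L : ℝ) : ∃ δ ρ : ℝ, Good m n L δ ρ := by
  by_cases hL : 1 ≤ L
  swap
  · exact ⟨1, 1, one_pos, one_pos, fun h => (hL h).elim⟩
  have ht : Tendsto (fun r => volume (Metric.thickening r (St n))) (𝓝[>] 0) (𝓝 0) := by
    have := tendsto_measure_thickening_of_isClosed (μ := volume) (s := St n)
      ⟨1, one_pos, ?_⟩ (isCompact_St n).isClosed
    · rwa [volume_St] at this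
    · exact ((isCompact_St n).isBounded.thickening).measure_lt_top.ne
  have ht2 : Tendsto (fun r => ENNReal.ofReal (L + 1) ^ (m + 3) *
      volume (Metric.thickening r (St n))) (𝓝[>] 0) (𝓝 0) := by
    have := ENNReal.Tendsto.const_mul (a := ENNReal.ofReal (L + 1) ^ (m + 3)) ht
      (Or.inr (by finiteness))
    rwa [mul_zero] at this
  have hev : ∀ᶠ r in 𝓝[>] (0 : ℝ), ENNReal.ofReal (L + 1) ^ (m + 3) *
      volume (Metric.thickening r (St n)) < ENNReal.ofReal ((1 / 2) ^ n) :=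
    ht2.eventually_lt_const (by
      rw [ENNReal.ofReal_pos]
      positivity)
  have hev2 : ∀ᶠ r in 𝓝[>] (0 : ℝ), r ∈ Ioc (0 : ℝ) (gap n) :=
    Ioc_mem_nhdsGT (gap_pos n)
  obtain ⟨δ, h1, h2⟩ := (hev.and hev2).exists
  have hδ : 0 < δ := h2.1
  have hpos : 0 < (L + 1 / δ) ^ (m + 3) := by positivity
  refine ⟨δ, min (1 / L) ((1 / 2) ^ n / (L + 1 / δ) ^ (m + 3)), hδ, ?_, fun _ =>
    ⟨h2.2, min_le_left _ _, h1.le, ?_⟩⟩
  · exact lt_min (by positivity) (by positivity)
  · calc (L + 1 / δ) ^ (m + 3) * min (1 / L) ((1 / 2) ^ n / (L + 1 / δ) ^ (m + 3))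
        ≤ (L + 1 / δ) ^ (m + 3) * ((1 / 2) ^ n / (L + 1 / δ) ^ (m + 3)) := by
          gcongr
          exact min_le_right _ _
      _ = (1 / 2) ^ n := by field_simp

noncomputable def dl (m n : ℕ) (L : ℝ) : ℝ := (exists_params m n L).choose
noncomputable def rh (m n : ℕ) (L : ℝ) : ℝ := (exists_params m n L).choose_spec.choose

theorem good_dl_rh (m n : ℕ) (L : ℝ) : Good m n L (dl m n L) (rh m n L) :=
  (exists_params m n L).choose_spec.choose_spec

/-- Lipschitz constants of the stages. -/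
noncomputable def Ls (m : ℕ) : ℕ → ℝ
  | 0 => 1
  | n + 1 => Ls m n + 1 / dl m n (Ls m n) + 1 / rh m n (Ls m n)

noncomputable def δs (m n : ℕ) : ℝ := dl m n (Ls m n)
noncomputable def ρs (m n : ℕ) : ℝ := rh m n (Ls m n)

theorem Ls_succ (m n : ℕ) : Ls m (n + 1) = Ls m n + 1 / δs m n + 1 / ρs m n := rfl

theorem δs_pos (m n : ℕ) : 0 < δs m n := (good_dl_rh m n _).1
theorem ρs_pos (m n : ℕ) : 0 < ρs m n := (good_dl_rh m n _).2.1

theorem one_le_Ls (m n : ℕ) : 1 ≤ Ls m n := by
  induction n with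
  | zero => exact le_refl _
  | succ n ih =>
    rw [Ls_succ]
    have h1 := δs_pos m n
    have h2 := ρs_pos m n
    have : 0 < 1 / δs m n := by positivity
    have : 0 < 1 / ρs m n := by positivity
    linarith

theorem δs_le_gap (m n : ℕ) : δs m n ≤ gap n := ((good_dl_rh m n _).2.2 (one_le_Ls m n)).1

theorem ρs_le (m n : ℕ) : ρs m n ≤ 1 / Ls m n := ((good_dl_rh m n _).2.2 (one_le_Ls m n)).2.1

theorem ρs_le_one (m n : ℕ) : ρs m n ≤ 1 :=
  (ρs_le m n).trans (by
    rw [div_le_one (by linarith [one_le_Ls m n])]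
    exact one_le_Ls m n)

theorem cond_th (m n : ℕ) :
    ENNReal.ofReal (Ls m n + 1) ^ (m + 3) * volume (Metric.thickening (δs m n) (St n)) ≤
      ENNReal.ofReal ((1 / 2) ^ n) := ((good_dl_rh m n _).2.2 (one_le_Ls m n)).2.2.1

theorem cond_rho (m n : ℕ) :
    (Ls m n + 1 / δs m n) ^ (m + 3) * ρs m n ≤ (1 / 2) ^ n :=
  ((good_dl_rh m n _).2.2 (one_le_Ls m n)).2.2.2

theorem ρs_le_pow (m n : ℕ) : ρs m n ≤ (1 / 2) ^ n := by
  refine le_trans ?_ (cond_rho m n)
  have h1 := one_le_Ls m n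
  have h2 := δs_pos m n
  have h3 : (1 : ℝ) ≤ (Ls m n + 1 / δs m n) ^ (m + 3) := by
    apply one_le_pow₀
    have : 0 < 1 / δs m n := by positivity
    linarith
  nlinarith [ρs_pos m n]

theorem ρs_succ_le (m n : ℕ) : ρs m (n + 1) ≤ ρs m n := by
  refine (ρs_le m (n + 1)).trans ?_
  have h1 := one_le_Ls m n
  have h2 := δs_pos m n
  have h3 := ρs_pos m n
  rw [div_le_iff₀ (by linarith [one_le_Ls m (n + 1)]), Ls_succ]
  have h4 : 0 < 1 / δs m n := by positivity
  have h5 : ρs m n * (1 / ρs m n) = 1 := by field_simp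
  nlinarith

theorem ρs_antitone (m : ℕ) : Antitone (ρs m) := antitone_nat_of_succ_le (ρs_succ_le m)

/-! ### The functions -/

/-- Cut-off in the shear direction. -/
noncomputable def tau (t : ℝ) : ℝ := max 0 (min 1 (min (4 * t) (4 * (1 - t))))

theorem tau_nonneg (t : ℝ) : 0 ≤ tau t := le_max_left _ _
theorem tau_le_one (t : ℝ) : tau t ≤ 1 := max_le zero_le_one (min_le_left _ _)
theorem tau_zero : tau 0 = 0 := by simp [tau]
theorem tau_one : tau 1 = 0 := by simp [tau]
theorem tau_mid {t : ℝ} (h : t ∈ Icc (1 / 4 : ℝ) (3 / 4)) : tau t = 1 := by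
  unfold tau
  have h1 : 1 ≤ 4 * t := by linarith [h.1]
  have h2 : 1 ≤ 4 * (1 - t) := by linarith [h.2]
  rw [min_eq_left (le_min h1 h2)]
  norm_num

theorem Lp_tau : Lp 4 tau := by
  have h1 : Lp 4 (fun t : ℝ => 4 * t) := fun p q => by
    rw [← mul_sub, abs_mul, Real.dist_eq]
    norm_num
  have h2 : Lp 4 (fun t : ℝ => 4 * (1 - t)) := fun p q => by
    have : 4 * (1 - p) - 4 * (1 - q) = -(4 * (p - q)) := by ring
    rw [this, abs_neg, abs_mul, Real.dist_eq]
    norm_num
  exact ((Lp.const 0).mono (by norm_num)).max (((Lp.const 1).mono (by norm_num)).min (h1.min h2))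

/-- Weights. -/
noncomputable def lam (k : ℕ) : ℝ := (1 / 2) ^ (k / 2) / 32

theorem lam_pos (k : ℕ) : 0 < lam k := by unfold lam; positivity

theorem lam_le_one (k : ℕ) : lam k ≤ 1 := by
  unfold lam
  have : (1 / 2 : ℝ) ^ (k / 2) ≤ 1 := pow_le_one₀ (by norm_num) (by norm_num)
  linarith

theorem lam_even (j : ℕ) : lam (2 * j) = (1 / 2) ^ j / 32 := by
  unfold lam
  rw [show 2 * j / 2 = j by omega]

theorem lam_odd (j : ℕ) : lam (2 * j + 1) = (1 / 2) ^ j / 32 := by
  unfold lam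
  rw [show (2 * j + 1) / 2 = j by omega]

theorem hasSum_lam : HasSum lam (1 / 8) := by
  have h : HasSum (fun j : ℕ => (1 / 2 : ℝ) ^ j / 32) (1 / 16) := by
    have := (hasSum_geometric_of_lt_one (r := (1 / 2 : ℝ)) (by norm_num) (by norm_num)).div_const 32
    rwa [show (1 - 1 / 2 : ℝ)⁻¹ / 32 = 1 / 16 by norm_num] at this
  have he : HasSum (fun j => lam (2 * j)) (1 / 16) := by simpa only [lam_even] using h
  have ho : HasSum (fun j => lam (2 * j + 1)) (1 / 16) := by simpa only [lam_odd] using h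
  have := he.even_add_odd ho
  rwa [show (1 / 16 + 1 / 16 : ℝ) = 1 / 8 by norm_num] at this

/-- Spike profile: `x` is the transversal variable and `y` the variable along the set `S`. -/
noncomputable def phi (δ ρ : ℝ) (S : Set ℝ) (x y : ℝ) : ℝ :=
  max 0 (min (1 - x / ρ) (1 - Metric.infDist y S / δ))

theorem phi_nonneg (δ ρ : ℝ) (S : Set ℝ) (x y : ℝ) : 0 ≤ phi δ ρ S x y := le_max_left _ _

theorem phi_le_one {δ : ℝ} (hδ : 0 < δ) (ρ : ℝ) (S : Set ℝ) (x y : ℝ) :
    phi δ ρ S x y ≤ 1 := by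
  refine max_le zero_le_one ((min_le_right _ _).trans ?_)
  have : 0 ≤ Metric.infDist y S / δ := div_nonneg Metric.infDist_nonneg hδ.le
  linarith

theorem phi_eq_zero_of_le {δ ρ : ℝ} (hρ : 0 < ρ) (S : Set ℝ) {x : ℝ} (y : ℝ) (h : ρ ≤ x) :
    phi δ ρ S x y = 0 := by
  unfold phi
  rw [max_eq_left]
  refine (min_le_left _ _).trans ?_
  have : 1 ≤ x / ρ := by rwa [one_le_div hρ]
  linarith

/-- Coordinate used by the spikes of stage `k`. -/
def cc (m k : ℕ) : Fin (m + 3) := if k % 2 = 0 then 1 else 2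

/-- The `k`-th term. -/
noncomputable def w (m k : ℕ) (q : V m) : ℝ :=
  lam k * phi (δs m k) (ρs m k) (St k) (q 0) (q (cc m k))

theorem w_nonneg (m k : ℕ) (q : V m) : 0 ≤ w m k q :=
  mul_nonneg (lam_pos k).le (phi_nonneg _ _ _ _ _)

theorem w_le (m k : ℕ) (q : V m) : w m k q ≤ lam k := by
  unfold w
  have := phi_le_one (δs_pos m k) (ρs m k) (St k) (q 0) (q (cc m k))
  nlinarith [lam_pos k]

/-- indicator weights: `s` selects the parity. -/
noncomputable def sel (s : ℕ) (k : ℕ) : ℝ := if k % 2 = s then 1 else 0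

theorem sel_nonneg (s k : ℕ) : 0 ≤ sel s k := by unfold sel; split_ifs <;> norm_num
theorem sel_le_one (s k : ℕ) : sel s k ≤ 1 := by unfold sel; split_ifs <;> norm_num
theorem abs_sel_le (s k : ℕ) : |sel s k| ≤ 1 := by
  rw [abs_of_nonneg (sel_nonneg s k)]; exact sel_le_one s k

/-- Partial sums over the parity class `s`. -/
noncomputable def an (m s n : ℕ) (q : V m) : ℝ := ∑ k ∈ Finset.range n, sel s k * w m k q

theorem an_succ (m s n : ℕ) (q : V m) : an m s (n + 1) q = an m s n q + sel s n * w m n q := by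
  unfold an
  rw [Finset.sum_range_succ]

/-- The limit function. -/
noncomputable def aa (m s : ℕ) (q : V m) : ℝ := ∑' k, sel s k * w m k q

theorem term_nonneg (m s k : ℕ) (q : V m) : 0 ≤ sel s k * w m k q :=
  mul_nonneg (sel_nonneg s k) (w_nonneg m k q)

theorem term_le (m s k : ℕ) (q : V m) : sel s k * w m k q ≤ lam k := by
  have h1 := sel_le_one s k
  have h2 := sel_nonneg s k
  have h3 := w_le m k q
  have h4 := w_nonneg m k q
  nlinarith

theorem summable_term (m s : ℕ) (q : V m) : Summable (fun k => sel s k * w m k q) :=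
  Summable.of_nonneg_of_le (fun k => term_nonneg m s k q) (fun k => term_le m s k q)
    hasSum_lam.summable

theorem aa_nonneg (m s : ℕ) (q : V m) : 0 ≤ aa m s q := tsum_nonneg fun k => term_nonneg m s k q

theorem aa_le (m s : ℕ) (q : V m) : aa m s q ≤ 1 / 8 := by
  rw [← hasSum_lam.tsum_eq]
  exact (summable_term m s q).tsum_le_tsum (fun k => term_le m s k q) hasSum_lam.summable

theorem an_nonneg (m s n : ℕ) (q : V m) : 0 ≤ an m s n q :=
  Finset.sum_nonneg fun k _ => term_nonneg m s k q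

theorem an_le (m s n : ℕ) (q : V m) : an m s n q ≤ 1 / 8 :=
  (Finset.sum_le_sum fun k _ => term_le m s k q).trans
    (sum_le_hasSum _ (fun k _ => (lam_pos k).le) hasSum_lam)

theorem tendstoUniformly_an (m s : ℕ) : TendstoUniformly (fun n => an m s n) (aa m s) atTop := by
  refine tendstoUniformly_tsum_nat hasSum_lam.summable fun k q => ?_
  rw [Real.norm_eq_abs, abs_of_nonneg (term_nonneg m s k q)]
  exact term_le m s k q

/-- Beyond the thickness of the next stage the limit equals the partial sum. -/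
theorem aa_eq_an (m s n : ℕ) (q : V m) (h : ρs m n ≤ q 0) : aa m s q = an m s n q := by
  unfold aa an
  refine tsum_eq_sum fun k hk => ?_
  rw [Finset.mem_range, not_lt] at hk
  unfold w
  rw [phi_eq_zero_of_le (ρs_pos m k) _ _ ((ρs_antitone m hk).trans h)]
  ring

theorem an_eq_an (m s n : ℕ) {k : ℕ} (hnk : n ≤ k) (q : V m) (h : ρs m n ≤ q 0) :
    an m s k q = an m s n q := by
  rw [← aa_eq_an m s n q h, ← aa_eq_an m s k q ((ρs_antitone m hnk).trans h)]

end Pool.Agent.MP_ccb05f_an
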