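import Mathlib

set_option autoImplicit false

open Set

namespace Pool.Agent.MP_ccb05f_an

/-- The cube `[0,1]^d` in Euclidean space. -/
def Cube (d : ℕ) : Set (EuclideanSpace ℝ (Fin d)) := {x | ∀ i, x i ∈ Icc (0 : ℝ) 1}

/-- The graph of a homeomorphism of the cube, inside `ℝ^d × ℝ^d` with its Euclidean metric. -/
def graph {d : ℕ} (f : Cube d ≃ₜ Cube d) :
    Set (WithLp 2 (EuclideanSpace ℝ (Fin d) × EuclideanSpace ℝ (Fin d))) :=
  range fun x : Cube d => WithLp.toLp 2 ((x : EuclideanSpace ℝ (Fin d)),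
    (f x : EuclideanSpace ℝ (Fin d)))

end Pool.Agent.MP_ccb05f_an
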