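import Mathlib

set_option autoImplicit false

open Real Set MeasureTheory Topology Filter Pointwise

namespace Pool.Agent.MP_ccb05f_an

/-- Digit sequences in base 16. -/
abbrev Dg : Type := ℕ → Fin 16

theorem ofDigits_succ (D : Dg) :
    ofDigits D = (D 0 : ℝ) / 16 + ofDigits (fun i => D (i + 1)) / 16 := by
  rw [ofDigits_eq_sum_add_ofDigits D 1]
  simp only [Finset.range_one, Finset.sum_singleton, ofDigitsTerm]
  norm_num
  ring

theorem ofDigits_lt_one {D : Dg} (h : ∀ j, (D j).val ≤ 14) : ofDigits D < 1 := by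
  have h15 := ofDigits_const_last_eq_one' (b := 16) (by norm_num)
  have h1 : 0 < ofDigits (fun _ => (1 : Fin 16) : Dg) := by
    have := ofDigits_succ (fun _ => (1 : Fin 16))
    have h2 := ofDigits_nonneg (fun _ => (1 : Fin 16) : Dg)
    rw [this]
    have h3 : (((1 : Fin 16) : ℕ) : ℝ) = 1 := by norm_num
    simp only [h3]
    linarith
  have h2 : ofDigits D + ofDigits (fun _ => (1 : Fin 16) : Dg) ≤ 1 := by
    rw [← h15]
    simp only [ofDigits]
    rw [← Summable.tsum_add summable_ofDigitsTerm summable_ofDigitsTerm]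
    refine Summable.tsum_le_tsum (fun i => ?_)
      (summable_ofDigitsTerm.add summable_ofDigitsTerm) summable_ofDigitsTerm
    simp only [ofDigitsTerm]
    rw [← add_mul]
    gcongr
    have := h i
    have h3 : ((D i : ℕ) : ℝ) ≤ 14 := by exact_mod_cast this
    have h4 : (((1 : Fin 16) : ℕ) : ℝ) = 1 := by norm_num
    rw [h4]
    push_cast
    linarith
  linarith

theorem ofDigits_inj {D D' : Dg} (h : ∀ j, (D j).val ≤ 14) (h' : ∀ j, (D' j).val ≤ 14)
    (heq : ofDigits D = ofDigits D') : D = D' := by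
  have key : ∀ (n : ℕ) (D D' : Dg), (∀ j, (D j).val ≤ 14) → (∀ j, (D' j).val ≤ 14) →
      ofDigits D = ofDigits D' → D n = D' n := by
    intro n
    induction n with
    | zero =>
      intro D D' h h' heq
      rw [ofDigits_succ D, ofDigits_succ D'] at heq
      have h1 := ofDigits_nonneg (fun i => D (i + 1))
      have h2 := ofDigits_nonneg (fun i => D' (i + 1))
      have h3 := ofDigits_lt_one (D := fun i => D (i + 1)) (fun j => h _)
      have h4 := ofDigits_lt_one (D := fun i => D' (i + 1)) (fun j => h' _)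
      have h5 : ((D 0 : ℕ) : ℝ) < (D' 0 : ℕ) + 1 := by linarith
      have h6 : ((D' 0 : ℕ) : ℝ) < (D 0 : ℕ) + 1 := by linarith
      norm_cast at h5 h6
      exact Fin.ext (by omega)
    | succ n ih =>
      intro D D' h h' heq
      have h0 : D 0 = D' 0 := by
        rw [ofDigits_succ D, ofDigits_succ D'] at heq
        have h1 := ofDigits_nonneg (fun i => D (i + 1))
        have h2 := ofDigits_nonneg (fun i => D' (i + 1))
        have h3 := ofDigits_lt_one (D := fun i => D (i + 1)) (fun j => h _)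
        have h4 := ofDigits_lt_one (D := fun i => D' (i + 1)) (fun j => h' _)
        have h5 : ((D 0 : ℕ) : ℝ) < (D' 0 : ℕ) + 1 := by linarith
        have h6 : ((D' 0 : ℕ) : ℝ) < (D 0 : ℕ) + 1 := by linarith
        norm_cast at h5 h6
        exact Fin.ext (by omega)
      have := ih (fun i => D (i + 1)) (fun i => D' (i + 1)) (fun j => h _) (fun j => h' _) (by
        rw [ofDigits_succ D, ofDigits_succ D', h0] at heq
        linarith)
      exact this
  funext n
  exact key n D D' h h' heq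

/-- A set of reals whose base 16 digits avoid half of the values is null. -/
theorem volume_eq_zero_of_bit (P : Fin 16 → Prop) [DecidablePred P]
    (hP : (Finset.univ.filter P).card ≤ 8) :
    volume (ofDigits '' {D : Dg | ∀ j, P (D j)}) = 0 := by
  set A : Set ℝ := ofDigits '' {D : Dg | ∀ j, P (D j)} with hA
  have hfin : volume A ≠ ⊤ := by
    refine ne_top_of_le_ne_top (b := volume (Icc (0 : ℝ) 1)) (by simp) (measure_mono ?_)
    rintro _ ⟨D, _, rfl⟩
    exact ⟨ofDigits_nonneg D, ofDigits_le_one D⟩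
  have hsub : A ⊆ ⋃ c ∈ Finset.univ.filter P, ((c : ℝ) / 16) +ᵥ ((1 / 16 : ℝ) • A) := by
    rintro _ ⟨D, hD, rfl⟩
    rw [mem_iUnion₂]
    refine ⟨D 0, by simpa using hD 0, ?_⟩
    rw [ofDigits_succ D]
    refine ⟨(1 / 16 : ℝ) • ofDigits (fun i => D (i + 1)), ?_, ?_⟩
    · exact ⟨_, ⟨_, fun j => hD (j + 1), rfl⟩, rfl⟩
    · simp only [smul_eq_mul, vadd_eq_add]
      ring
  have hle : volume A ≤ 2⁻¹ * volume A := by
    calc volume A ≤ volume (⋃ c ∈ Finset.univ.filter P, ((c : ℝ) / 16) +ᵥ ((1 / 16 : ℝ) • A)) :=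
          measure_mono hsub
      _ ≤ ∑ c ∈ Finset.univ.filter P, volume (((c : ℝ) / 16) +ᵥ ((1 / 16 : ℝ) • A)) :=
          measure_biUnion_finset_le _ _
      _ = ∑ c ∈ Finset.univ.filter P, ENNReal.ofReal (1 / 16) * volume A := by
          refine Finset.sum_congr rfl fun c _ => ?_
          rw [measure_vadd, Measure.addHaar_smul]
          simp
      _ = (Finset.univ.filter P).card * (ENNReal.ofReal (1 / 16) * volume A) := by
          rw [Finset.sum_const, nsmul_eq_mul]
      _ ≤ 8 * (ENNReal.ofReal (1 / 16) * volume A) := by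
          gcongr
          exact_mod_cast hP
      _ = 2⁻¹ * volume A := by
          rw [← mul_assoc]
          congr 1
          rw [show (8 : ENNReal) = ENNReal.ofReal 8 by norm_num,
            ← ENNReal.ofReal_mul (by norm_num), show (8 : ℝ) * (1 / 16) = 2⁻¹ by norm_num,
            ENNReal.ofReal_inv_of_pos (by norm_num)]
          norm_num
  by_contra hne
  have h2 : 2⁻¹ * volume A < volume A := by
    rw [mul_comm, ← div_eq_mul_inv]
    exact ENNReal.half_lt_self hne hfin
  exact absurd hle (not_le.mpr h2)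

/-! ### Position of points -/

/-- Rescaled value of a digit sequence. -/
noncomputable def pos (D : Dg) : ℝ := 1 / 4 + ofDigits D / 2

theorem continuous_pos : Continuous pos := by
  unfold pos
  exact continuous_const.add (continuous_ofDigits.div_const 2)

theorem pos_mem (D : Dg) : pos D ∈ Icc (1 / 4 : ℝ) (3 / 4) := by
  have h1 := ofDigits_nonneg D
  have h2 := ofDigits_le_one D
  unfold pos
  constructor <;> linarith

theorem isClosed_cyl (P : Fin 16 → Prop) : IsClosed {D : Dg | ∀ j, P (D j)} := by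
  have : {D : Dg | ∀ j, P (D j)} = ⋂ j, (fun D : Dg => D j) ⁻¹' {c | P c} := by
    ext D; simp
  rw [this]
  exact isClosed_iInter fun j => (isClosed_discrete _).preimage (continuous_apply j)

theorem isClosed_cyl1 (R : Fin 16 → Prop) (j : ℕ) : IsClosed {D : Dg | R (D j)} :=
  (isClosed_discrete {c | R c}).preimage (continuous_apply j)

/-- The set of positions with prescribed digit property at one place. -/
def cyl (P R : Fin 16 → Prop) (j : ℕ) : Set ℝ := pos '' ({D | ∀ i, P (D i)} ∩ {D | R (D j)})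

theorem isCompact_cyl (P R : Fin 16 → Prop) (j : ℕ) : IsCompact (cyl P R j) :=
  (((isClosed_cyl P).inter (isClosed_cyl1 R j)).isCompact).image continuous_pos

theorem volume_cyl (P R : Fin 16 → Prop) [DecidablePred P]
    (hP : (Finset.univ.filter P).card ≤ 8) (j : ℕ) : volume (cyl P R j) = 0 := by
  have h0 := volume_eq_zero_of_bit P hP
  have hsub : cyl P R j ⊆ (1 / 4 : ℝ) +ᵥ ((1 / 2 : ℝ) • (ofDigits '' {D : Dg | ∀ j, P (D j)})) := by
    rintro _ ⟨D, hD, rfl⟩
    refine ⟨(1 / 2 : ℝ) • ofDigits D, ⟨_, ⟨D, hD.1, rfl⟩, rfl⟩, ?_⟩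
    simp only [pos, vadd_eq_add, smul_eq_mul]
    ring
  refine measure_mono_null hsub ?_
  rw [measure_vadd, Measure.addHaar_smul, h0, mul_zero]

theorem exists_gap (P R : Fin 16 → Prop) (hP : ∀ c, P c → c.val ≤ 14) (j : ℕ)
    (hne : ∃ D : Dg, (∀ i, P (D i)) ∧ R (D j)) :
    ∃ g : ℝ, 0 < g ∧ ∀ D : Dg, (∀ i, P (D i)) → ¬ R (D j) →
      g ≤ Metric.infDist (pos D) (cyl P R j) := by
  have hclosed : IsClosed (cyl P R j) := (isCompact_cyl P R j).isClosed
  have hne' : (cyl P R j).Nonempty := by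
    obtain ⟨D, h1, h2⟩ := hne
    exact ⟨_, D, ⟨h1, h2⟩, rfl⟩
  have hpos : ∀ x ∈ cyl P (fun c => ¬ R c) j, 0 < Metric.infDist x (cyl P R j) := by
    rintro _ ⟨D, hD, rfl⟩
    rw [← hclosed.notMem_iff_infDist_pos hne']
    rintro ⟨D', hD', heq⟩
    have h1 : ofDigits D' = ofDigits D := by
      simp only [pos] at heq
      linarith
    have h2 := ofDigits_inj (fun j => hP _ (hD'.1 j)) (fun j => hP _ (hD.1 j)) h1
    rw [h2] at hD'
    exact hD.2 hD'.2
  by_cases hempty : (cyl P (fun c => ¬ R c) j).Nonempty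
  · obtain ⟨x0, hx0, hmin⟩ := (isCompact_cyl P (fun c => ¬ R c) j).exists_isMinOn hempty
      (Metric.continuous_infDist_pt (cyl P R j)).continuousOn
    exact ⟨_, hpos x0 hx0, fun D h1 h2 => hmin ⟨D, ⟨h1, h2⟩, rfl⟩⟩
  · refine ⟨1, one_pos, fun D h1 h2 => ?_⟩
    exact (hempty ⟨_, D, ⟨h1, h2⟩, rfl⟩).elim

/-! ### The concrete digit sets -/

def PY (c : Fin 16) : Prop := (c.val / 2) % 2 = 0
def PZ (c : Fin 16) : Prop := c.val % 2 = 0
def RY (c : Fin 16) : Prop := c.val / 8 = 1
def RZ (c : Fin 16) : Prop := (c.val / 4) % 2 = 1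

instance : DecidablePred PY := fun c => by unfold PY; infer_instance
instance : DecidablePred PZ := fun c => by unfold PZ; infer_instance
instance : DecidablePred RY := fun c => by unfold RY; infer_instance
instance : DecidablePred RZ := fun c => by unfold RZ; infer_instance

def mixY (c : Fin 16) (α : Fin 2) : Fin 16 :=
  ⟨4 * ((c.val / 4) % 2) + c.val % 2 + 8 * α.val, by have := α.2; omega⟩
def mixZ (c : Fin 16) (β : Fin 2) : Fin 16 :=
  ⟨8 * (c.val / 8) + 2 * ((c.val / 2) % 2) + 4 * β.val, by have := β.2; have := c.2; omega⟩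
def mixE (α β : Fin 2) : Fin 16 := ⟨8 * α.val + 4 * β.val, by have := α.2; have := β.2; omega⟩

theorem mix_sum : ∀ (c : Fin 16) (α β : Fin 2),
    (mixY c α).val + (mixZ c β).val = c.val + (mixE α β).val := by decide

theorem PY_mixY : ∀ (c : Fin 16) (α : Fin 2), PY (mixY c α) := by decide
theorem PZ_mixZ : ∀ (c : Fin 16) (α : Fin 2), PZ (mixZ c α) := by decide
theorem RY_mixY : ∀ (c : Fin 16) (α : Fin 2), RY (mixY c α) ↔ α = 1 := by decide
theorem RZ_mixZ : ∀ (c : Fin 16) (α : Fin 2), RZ (mixZ c α) ↔ α = 1 := by decide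
theorem mixE_le : ∀ (α β : Fin 2), 5 * (mixE α β).val ≤ 60 := by decide
theorem PY_le : ∀ c : Fin 16, PY c → c.val ≤ 14 := by decide
theorem PZ_le : ∀ c : Fin 16, PZ c → c.val ≤ 14 := by decide
theorem PY_card : (Finset.univ.filter PY).card ≤ 8 := by decide
theorem PZ_card : (Finset.univ.filter PZ).card ≤ 8 := by decide

theorem exists_digits (t : ℝ) (ht : t ∈ Ico (9 / 10 : ℝ) 1 ) (α β : ℕ → Fin 2) :
    ∃ D D' : Dg, (∀ i, PY (D i)) ∧ (∀ i, PZ (D' i)) ∧ (pos D + pos D' = 1 / 2 + t / 2) ∧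
      (∀ j, RY (D j) ↔ α j = 1) ∧ (∀ j, RZ (D' j) ↔ β j = 1) := by
  have hE : ofDigits (fun j => mixE (α j) (β j) : Dg) ≤ 4 / 5 := by
    have h15 := ofDigits_const_last_eq_one' (b := 16) (by norm_num)
    have h5 : 5 * ofDigits (fun j => mixE (α j) (β j) : Dg) ≤ 4 * 1 := by
      rw [← h15]
      simp only [ofDigits]
      rw [← Summable.tsum_mul_left _ summable_ofDigitsTerm,
        ← Summable.tsum_mul_left _ summable_ofDigitsTerm]
      refine Summable.tsum_le_tsum (fun i => ?_)
        (summable_ofDigitsTerm.mul_left _) (summable_ofDigitsTerm.mul_left _)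
      simp only [ofDigitsTerm]
      rw [← mul_assoc, ← mul_assoc]
      refine mul_le_mul_of_nonneg_right ?_ (by positivity)
      have := mixE_le (α i) (β i)
      have h3 : (5 : ℝ) * ((mixE (α i) (β i) : ℕ) : ℝ) ≤ 60 := by exact_mod_cast this
      push_cast
      linarith
    linarith
  have hE0 := ofDigits_nonneg (fun j => mixE (α j) (β j) : Dg)
  set r := t - ofDigits (fun j => mixE (α j) (β j) : Dg) with hr
  have hr0 : r ∈ Ico (0 : ℝ) 1 := ⟨by linarith [ht.1], by linarith [ht.2]⟩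
  let c : Dg := digits r 16
  have hc : ofDigits c = r := ofDigits_digits (by norm_num) hr0
  refine ⟨fun j => mixY (c j) (α j), fun j => mixZ (c j) (β j), fun j => PY_mixY _ _,
    fun j => PZ_mixZ _ _, ?_, fun j => RY_mixY _ _, fun j => RZ_mixZ _ _⟩
  have hsum : ofDigits (fun j => mixY (c j) (α j) : Dg) + ofDigits (fun j => mixZ (c j) (β j) : Dg)
      = ofDigits c + ofDigits (fun j => mixE (α j) (β j) : Dg) := by
    simp only [ofDigits]
    rw [← Summable.tsum_add summable_ofDigitsTerm summable_ofDigitsTerm,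
      ← Summable.tsum_add summable_ofDigitsTerm summable_ofDigitsTerm]
    congr 1
    funext i
    simp only [ofDigitsTerm]
    rw [← add_mul, ← add_mul]
    congr 1
    exact_mod_cast mix_sum (c i) (α i) (β i)
  simp only [pos]
  rw [hc] at hsum
  linarith

/-- The sets used at stage `k`. -/
def St (k : ℕ) : Set ℝ := if k % 2 = 0 then cyl PY RY (k / 2) else cyl PZ RZ (k / 2)

theorem St_even (j : ℕ) : St (2 * j) = cyl PY RY j := by
  unfold St
  rw [if_pos (by omega)]
  congr 1; omega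

theorem St_odd (j : ℕ) : St (2 * j + 1) = cyl PZ RZ j := by
  unfold St
  rw [if_neg (by omega)]
  congr 1; omega

theorem isCompact_St (k : ℕ) : IsCompact (St k) := by
  unfold St
  split_ifs <;> exact isCompact_cyl _ _ _

theorem volume_St (k : ℕ) : volume (St k) = 0 := by
  unfold St
  split_ifs
  · exact volume_cyl _ _ PY_card _
  · exact volume_cyl _ _ PZ_card _

theorem exists_D_Y (j : ℕ) : ∃ D : Dg, (∀ i, PY (D i)) ∧ RY (D j) :=
  ⟨fun _ => 8, fun _ => (by decide : PY 8), (by decide : RY 8)⟩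

theorem exists_D_Z (j : ℕ) : ∃ D : Dg, (∀ i, PZ (D i)) ∧ RZ (D j) :=
  ⟨fun _ => 4, fun _ => (by decide : PZ 4), (by decide : RZ 4)⟩

theorem nonempty_St (k : ℕ) : (St k).Nonempty := by
  unfold St
  split_ifs
  · obtain ⟨D, h1, h2⟩ := exists_D_Y (k / 2)
    exact ⟨_, D, ⟨h1, h2⟩, rfl⟩
  · obtain ⟨D, h1, h2⟩ := exists_D_Z (k / 2)
    exact ⟨_, D, ⟨h1, h2⟩, rfl⟩

noncomputable def gapY (j : ℕ) : ℝ := (exists_gap PY RY PY_le j (exists_D_Y j)).choose
noncomputable def gapZ (j : ℕ) : ℝ := (exists_gap PZ RZ PZ_le j (exists_D_Z j)).choose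

noncomputable def gap (k : ℕ) : ℝ := if k % 2 = 0 then gapY (k / 2) else gapZ (k / 2)

theorem gap_pos (k : ℕ) : 0 < gap k := by
  unfold gap
  split_ifs
  · exact (exists_gap PY RY PY_le (k / 2) (exists_D_Y _)).choose_spec.1
  · exact (exists_gap PZ RZ PZ_le (k / 2) (exists_D_Z _)).choose_spec.1

theorem gap_even (j : ℕ) (D : Dg) (h1 : ∀ i, PY (D i)) (h2 : ¬ RY (D j)) :
    gap (2 * j) ≤ Metric.infDist (pos D) (St (2 * j)) := by
  have hj : gap (2 * j) = gapY j := by
    unfold gap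
    rw [if_pos (by omega)]
    congr 1; omega
  rw [St_even, hj]
  exact (exists_gap PY RY PY_le j (exists_D_Y j)).choose_spec.2 D h1 h2

theorem gap_odd (j : ℕ) (D : Dg) (h1 : ∀ i, PZ (D i)) (h2 : ¬ RZ (D j)) :
    gap (2 * j + 1) ≤ Metric.infDist (pos D) (St (2 * j + 1)) := by
  have hj : gap (2 * j + 1) = gapZ j := by
    unfold gap
    rw [if_neg (by omega)]
    congr 1; omega
  rw [St_odd, hj]
  exact (exists_gap PZ RZ PZ_le j (exists_D_Z j)).choose_spec.2 D h1 h2

theorem mem_St_even (j : ℕ) (D : Dg) (h1 : ∀ i, PY (D i)) (h2 : RY (D j)) :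
    pos D ∈ St (2 * j) := by
  rw [St_even]; exact ⟨D, ⟨h1, h2⟩, rfl⟩

theorem mem_St_odd (j : ℕ) (D : Dg) (h1 : ∀ i, PZ (D i)) (h2 : RZ (D j)) :
    pos D ∈ St (2 * j + 1) := by
  rw [St_odd]; exact ⟨D, ⟨h1, h2⟩, rfl⟩

end Pool.Agent.MP_ccb05f_an
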