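import Pool.Agent.MP_ccb05f_an.Homeo

set_option autoImplicit false

open Real Set MeasureTheory Topology Filter
open scoped ENNReal NNReal

namespace Pool.Agent.MP_ccb05f_an

/-- The space containing the graphs. -/
abbrev GE (m : ℕ) : Type :=
  WithLp 2 (EuclideanSpace ℝ (Fin (m + 3)) × EuclideanSpace ℝ (Fin (m + 3)))

/-- The domain on which the graph map is Lipschitz. -/
def Dm (m : ℕ) : Set (V m × ℝ × ℝ) := {z | z.2.1 ∈ Icc (0 : ℝ) 1 ∧ z.2.2 ∈ Icc (0 : ℝ) 1}

theorem dist_update_le {m : ℕ} (z z' : V m × ℝ × ℝ) (a a' : ℝ) (j : Fin (m + 3))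
    (ha' : a' ∈ Icc (0 : ℝ) 1) (hd : dist a a' ≤ dist z z') :
    dist (Function.update z.1 j (z.1 j + a * tau (z.1 j)))
      (Function.update z'.1 j (z'.1 j + a' * tau (z'.1 j))) ≤ 6 * dist z z' := by
  have h0 : 0 ≤ dist z z' := dist_nonneg
  rw [dist_pi_le_iff (by positivity)]
  intro i
  have h2 : dist (z.1 i) (z'.1 i) ≤ dist z z' :=
    (dist_le_pi_dist z.1 z'.1 i).trans (le_max_left _ _)
  by_cases hi : i = j
  · subst hi
    rw [Function.update_self, Function.update_self]
    rw [Real.dist_eq] at hd ⊢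
    have e : z.1 i + a * tau (z.1 i) - (z'.1 i + a' * tau (z'.1 i)) =
      (z.1 i - z'.1 i) + ((a - a') * tau (z.1 i) + a' * (tau (z.1 i) - tau (z'.1 i))) := by ring
    rw [e]
    refine (abs_add_le _ _).trans ?_
    have h8 := abs_add_le ((a - a') * tau (z.1 i)) (a' * (tau (z.1 i) - tau (z'.1 i)))
    rw [abs_mul, abs_mul, abs_of_nonneg (tau_nonneg _), abs_of_nonneg ha'.1] at h8
    have h1 := Lp_tau (z.1 i) (z'.1 i)
    have h3 := tau_le_one (z.1 i)
    have h4 := tau_nonneg (z.1 i)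
    have h5 : |a - a'| * tau (z.1 i) ≤ dist z z' := by
      nlinarith [abs_nonneg (a - a')]
    have h6 : a' * |tau (z.1 i) - tau (z'.1 i)| ≤ 4 * dist z z' := by
      have h7 := abs_nonneg (tau (z.1 i) - tau (z'.1 i))
      nlinarith [ha'.1, ha'.2]
    rw [Real.dist_eq] at h2
    linarith
  · rw [Function.update_of_ne hi, Function.update_of_ne hi]
    linarith

theorem exists_lip_Gm (m : ℕ) : ∃ C : ℝ≥0, LipschitzOnWith C (Gm (m := m)) (Dm m) := by
  have h1 : LipschitzOnWith 6 (fun z : V m × ℝ × ℝ =>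
      Function.update z.1 2 (z.1 2 + z.2.1 * tau (z.1 2))) (Dm m) :=
    LipschitzOnWith.of_dist_le_mul fun z hz z' hz' =>
      dist_update_le z z' _ _ 2 hz'.1
        ((le_max_left (dist z.2.1 z'.2.1) (dist z.2.2 z'.2.2)).trans (le_max_right _ _))
  have h2 : LipschitzOnWith 6 (fun z : V m × ℝ × ℝ =>
      Function.update z.1 1 (z.1 1 + z.2.2 * tau (z.1 1))) (Dm m) :=
    LipschitzOnWith.of_dist_le_mul fun z hz z' hz' =>
      dist_update_le z z' _ _ 1 hz'.2
        ((le_max_right (dist z.2.1 z'.2.1) (dist z.2.2 z'.2.2)).trans (le_max_right _ _))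
  have h3 := (PiLp.lipschitzWith_toLp 2 (fun _ : Fin (m + 3) => ℝ)).comp_lipschitzOnWith h1
  have h4 := (PiLp.lipschitzWith_toLp 2 (fun _ : Fin (m + 3) => ℝ)).comp_lipschitzOnWith h2
  have h5 := (WithLp.prod_lipschitzWith_toLp 2 (EuclideanSpace ℝ (Fin (m + 3)))
    (EuclideanSpace ℝ (Fin (m + 3)))).comp_lipschitzOnWith (h3.prodMk h4)
  exact ⟨_, h5⟩

theorem continuous_Gm (m : ℕ) : Continuous (Gm (m := m)) := by
  have ht := continuous_tau
  have h1 : Continuous (fun z : V m × ℝ × ℝ =>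
      Function.update z.1 2 (z.1 2 + z.2.1 * tau (z.1 2))) :=
    continuous_fst.update 2 (by fun_prop)
  have h2 : Continuous (fun z : V m × ℝ × ℝ =>
      Function.update z.1 1 (z.1 1 + z.2.2 * tau (z.1 1))) :=
    continuous_fst.update 1 (by fun_prop)
  have h3 := (PiLp.continuous_toLp 2 (fun _ : Fin (m + 3) => ℝ)).comp h1
  have h4 := (PiLp.continuous_toLp 2 (fun _ : Fin (m + 3) => ℝ)).comp h2
  exact (WithLp.prod_continuous_toLp 2 (EuclideanSpace ℝ (Fin (m + 3)))
    (EuclideanSpace ℝ (Fin (m + 3)))).comp (h3.prodMk h4)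

/-- The projection used for the lower bound. -/
noncomputable def pr (m : ℕ) (p : GE m) : V m := fun i =>
  if i = 0 then p.fst 1 + p.snd 2 else if i = 1 then p.fst 2 - p.snd 2
    else if i = 2 then p.snd 1 - p.fst 1 else p.fst i

theorem lip_pr (m : ℕ) : LipschitzWith 2 (pr m) := by
  refine LipschitzWith.of_dist_le_mul fun p p' => ?_
  have h1 : ∀ i, |p.fst i - p'.fst i| ≤ dist p p' := fun i => by
    rw [← Real.dist_eq]
    exact (PiLp.dist_apply_le p.fst p'.fst i).trans (WithLp.dist_fst_le p p')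
  have h2 : ∀ i, |p.snd i - p'.snd i| ≤ dist p p' := fun i => by
    rw [← Real.dist_eq]
    exact (PiLp.dist_apply_le p.snd p'.snd i).trans (WithLp.dist_snd_le p p')
  have h0 : 0 ≤ dist p p' := dist_nonneg
  rw [dist_pi_le_iff (by positivity)]
  intro i
  rw [Real.dist_eq]
  have e2 : ((2 : ℝ≥0) : ℝ) = 2 := rfl
  rw [e2]
  unfold pr
  split_ifs
  · have a1 := abs_le.mp (h1 1)
    have a2 := abs_le.mp (h2 2)
    rw [abs_le]; constructor <;> linarith
  · have a1 := abs_le.mp (h1 2)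
    have a2 := abs_le.mp (h2 2)
    rw [abs_le]; constructor <;> linarith
  · have a1 := abs_le.mp (h1 1)
    have a2 := abs_le.mp (h2 1)
    rw [abs_le]; constructor <;> linarith
  · have a1 := h1 i
    linarith

/-- The graph map of the limit. -/
noncomputable def Pinf (m : ℕ) (q : V m) : GE m := Gm (Winf m q)

theorem continuous_Pinf (m : ℕ) : Continuous (Pinf m) := by
  refine (continuous_Gm m).comp ?_
  exact continuous_id.prodMk ((continuous_aa m 0).prodMk (continuous_aa m 1))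

theorem injective_Pinf (m : ℕ) : Function.Injective (Pinf m) := by
  intro q q' h
  have h1 : (Pinf m q).fst.ofLp = (Pinf m q').fst.ofLp := by rw [h]
  exact sh_injective (ok_aa0 m) h1

/-- Value of the limit shear functions on the slice. -/
theorem aa_slice (m s : ℕ) (q : V m) (h0 : q 0 = 0) (α : ℕ → Fin 2) (hs : s = 0 ∨ s = 1)
    (h1 : ∀ j, α j = 1 → q (cc m (2 * j + s)) ∈ St (2 * j + s))
    (h2 : ∀ j, α j ≠ 1 → gap (2 * j + s) ≤ Metric.infDist (q (cc m (2 * j + s))) (St (2 * j + s))) :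
    aa m s q = ofDigits α / 16 := by
  have hw : ∀ j, w m (2 * j + s) q = (1 / 2) ^ j / 32 * (α j : ℕ) := by
    intro j
    have hl : lam (2 * j + s) = (1 / 2) ^ j / 32 := by
      rcases hs with rfl | rfl
      · exact lam_even j
      · exact lam_odd j
    unfold w phi
    rw [hl, h0, zero_div, sub_zero]
    have hδ := δs_pos m (2 * j + s)
    by_cases hα : α j = 1
    · rw [Metric.infDist_zero_of_mem (h1 j hα), zero_div, sub_zero, hα]
      norm_num
    · have h3 : 1 ≤ Metric.infDist (q (cc m (2 * j + s))) (St (2 * j + s)) /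
          δs m (2 * j + s) := by
        rw [one_le_div hδ]
        exact (δs_le_gap m _).trans (h2 j hα)
      have h4 : α j = 0 := by
        have := (α j).isLt
        rcases Fin.exists_fin_two.mp ⟨α j, rfl⟩ with h | h
        · exact h
        · exact (hα h).elim
      rw [max_eq_left ((min_le_right _ _).trans (by linarith)), h4]
      simp
  have hterm : ∀ j, ofDigitsTerm α j / 16 = (1 / 2) ^ j / 32 * (α j : ℕ) := by
    intro j
    unfold ofDigitsTerm
    rw [pow_succ, mul_inv, one_div, inv_pow]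
    push_cast
    ring
  have hsum : HasSum (fun j => w m (2 * j + s) q) (ofDigits α / 16) := by
    have h5 := (summable_ofDigitsTerm (digits := α)).hasSum.div_const 16
    have h6 : (fun j => w m (2 * j + s) q) = fun j => ofDigitsTerm α j / 16 := by
      funext j
      rw [hw j, hterm j]
    rw [h6]
    exact h5
  unfold aa
  rcases hs with rfl | rfl
  · have he : HasSum (fun j => sel 0 (2 * j) * w m (2 * j) q) (ofDigits α / 16) := by
      have h7 : (fun j => sel 0 (2 * j) * w m (2 * j) q) = fun j => w m (2 * j + 0) q := by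
        funext j
        simp [sel]
      rw [h7]
      exact hsum
    have ho : HasSum (fun j => sel 0 (2 * j + 1) * w m (2 * j + 1) q) 0 := by
      have : (fun j => sel 0 (2 * j + 1) * w m (2 * j + 1) q) = fun _ => 0 := by
        funext j
        have : (2 * j + 1) % 2 ≠ 0 := by omega
        simp [sel, this]
      rw [this]
      exact hasSum_zero
    have h9 := HasSum.even_add_odd (f := fun k => sel 0 k * w m k q) he ho
    rw [add_zero] at h9
    exact h9.tsum_eq
  · have he : HasSum (fun j => sel 1 (2 * j) * w m (2 * j) q) 0 := by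
      have : (fun j => sel 1 (2 * j) * w m (2 * j) q) = fun _ => 0 := by
        funext j
        have : (2 * j) % 2 ≠ 1 := by omega
        simp [sel, this]
      rw [this]
      exact hasSum_zero
    have ho : HasSum (fun j => sel 1 (2 * j + 1) * w m (2 * j + 1) q) (ofDigits α / 16) := by
      have h7 : (fun j => sel 1 (2 * j + 1) * w m (2 * j + 1) q) =
          fun j => w m (2 * j + 1) q := by
        funext j
        have : (2 * j + 1) % 2 = 1 := by omega
        simp [sel, this]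
      rw [h7]
      exact hsum
    have h9 := HasSum.even_add_odd (f := fun k => sel 1 k * w m k q) he ho
    rw [zero_add] at h9
    exact h9.tsum_eq

/-- The box covered by the projection. -/
def Box (m : ℕ) : Set (V m) := Set.pi univ fun i =>
  if i = 0 then Ioo (19 / 20 : ℝ) 1 else if i = 1 then Ioo (0 : ℝ) (1 / 16)
    else if i = 2 then Ioo (0 : ℝ) (1 / 16) else Ioo (0 : ℝ) 1

theorem volume_Box_pos (m : ℕ) : 0 < volume (Box m) := by
  have hopen : IsOpen (Box m) := isOpen_set_pi finite_univ fun i _ => by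
    split_ifs <;> exact isOpen_Ioo
  refine hopen.measure_pos volume ?_
  refine univ_pi_nonempty_iff.mpr fun i => ?_
  split_ifs <;> exact nonempty_Ioo.mpr (by norm_num)

theorem Box_subset (m : ℕ) :
    Box m ⊆ pr m '' (Pinf m '' {q | q ∈ cubeV m ∧ q 0 = 0}) := by
  intro r hr
  have h10 := one_ne_zero' m
  have h20 := two_ne_zero' m
  have h12 := one_ne_two' m
  have r0 : r 0 ∈ Ioo (19 / 20 : ℝ) 1 := by simpa using hr 0 (mem_univ _)
  have r1 : r 1 ∈ Ioo (0 : ℝ) (1 / 16) := by simpa [h10] using hr 1 (mem_univ _)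
  have r2 : r 2 ∈ Ioo (0 : ℝ) (1 / 16) := by simpa [h20, h12.symm] using hr 2 (mem_univ _)
  have ri : ∀ i, i ≠ 0 → i ≠ 1 → i ≠ 2 → r i ∈ Ioo (0 : ℝ) 1 := by
    intro i hi0 hi1 hi2
    simpa [hi0, hi1, hi2] using hr i (mem_univ _)
  let α : ℕ → Fin 2 := digits (16 * r 1) 2
  let β : ℕ → Fin 2 := digits (16 * r 2) 2
  have hα : ofDigits α = 16 * r 1 :=
    ofDigits_digits (by norm_num) ⟨by linarith [r1.1], by linarith [r1.2]⟩
  have hβ : ofDigits β = 16 * r 2 :=
    ofDigits_digits (by norm_num) ⟨by linarith [r2.1], by linarith [r2.2]⟩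
  obtain ⟨D, D', hD, hD', hsum, hRD, hRD'⟩ := exists_digits (2 * r 0 - 1)
    ⟨by linarith [r0.1], by linarith [r0.2]⟩ α β
  let q : V m := fun i => if i = 0 then 0 else if i = 1 then pos D
    else if i = 2 then pos D' else r i
  have q0 : q 0 = 0 := by simp [q]
  have q1 : q 1 = pos D := by simp [q, h10]
  have q2 : q 2 = pos D' := by simp [q, h20, h12.symm]
  have qi : ∀ i, i ≠ 0 → i ≠ 1 → i ≠ 2 → q i = r i := by
    intro i hi0 hi1 hi2
    simp [q, hi0, hi1, hi2]
  have hqc : q ∈ cubeV m := by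
    intro i
    by_cases hi0 : i = 0
    · rw [hi0, q0]; exact ⟨le_rfl, zero_le_one⟩
    by_cases hi1 : i = 1
    · rw [hi1, q1]; have := pos_mem D; exact ⟨by linarith [this.1], by linarith [this.2]⟩
    by_cases hi2 : i = 2
    · rw [hi2, q2]; have := pos_mem D'; exact ⟨by linarith [this.1], by linarith [this.2]⟩
    rw [qi i hi0 hi1 hi2]
    have := ri i hi0 hi1 hi2
    exact ⟨this.1.le, this.2.le⟩
  have ha : aa m 0 q = r 1 := by
    have := aa_slice m 0 q q0 α (Or.inl rfl) (fun j hj => by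
      have hc : cc m (2 * j + 0) = 1 := by unfold cc; rw [if_pos (by omega)]
      rw [hc, q1]
      exact mem_St_even j D hD ((hRD j).mpr hj)) (fun j hj => by
      have hc : cc m (2 * j + 0) = 1 := by unfold cc; rw [if_pos (by omega)]
      rw [hc, q1]
      exact gap_even j D hD (fun h => hj ((hRD j).mp h)))
    rw [this, hα]; ring
  have hb : aa m 1 q = r 2 := by
    have := aa_slice m 1 q q0 β (Or.inr rfl) (fun j hj => by
      have hc : cc m (2 * j + 1) = 2 := by unfold cc; rw [if_neg (by omega)]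
      rw [hc, q2]
      exact mem_St_odd j D' hD' ((hRD' j).mpr hj)) (fun j hj => by
      have hc : cc m (2 * j + 1) = 2 := by unfold cc; rw [if_neg (by omega)]
      rw [hc, q2]
      exact gap_odd j D' hD' (fun h => hj ((hRD' j).mp h)))
    rw [this, hβ]; ring
  refine ⟨Pinf m q, ⟨q, ⟨hqc, q0⟩, rfl⟩, ?_⟩
  have t1 : tau (q 1) = 1 := by rw [q1]; exact tau_mid (pos_mem D)
  have t2 : tau (q 2) = 1 := by rw [q2]; exact tau_mid (pos_mem D')
  have f1 : ∀ i, (Pinf m q).fst i = Function.update q 2 (q 2 + r 1) i := by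
    intro i
    change Function.update q 2 (q 2 + aa m 0 q * tau (q 2)) i = _
    rw [ha, t2, mul_one]
  have f2 : ∀ i, (Pinf m q).snd i = Function.update q 1 (q 1 + r 2) i := by
    intro i
    change Function.update q 1 (q 1 + aa m 1 q * tau (q 1)) i = _
    rw [hb, t1, mul_one]
  funext i
  change (if i = 0 then (Pinf m q).fst 1 + (Pinf m q).snd 2
    else if i = 1 then (Pinf m q).fst 2 - (Pinf m q).snd 2
    else if i = 2 then (Pinf m q).snd 1 - (Pinf m q).fst 1 else (Pinf m q).fst i) = r i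
  rw [f1, f1, f2, f2, f1 i, Function.update_self, Function.update_self,
    Function.update_of_ne h12, Function.update_of_ne h12.symm]
  by_cases hi0 : i = 0
  · rw [if_pos hi0, hi0, q1, q2, hsum]; ring
  rw [if_neg hi0]
  by_cases hi1 : i = 1
  · rw [if_pos hi1, hi1]; ring
  rw [if_neg hi1]
  by_cases hi2 : i = 2
  · rw [if_pos hi2, hi2]; ring
  rw [if_neg hi2, Function.update_of_ne hi2, qi i hi0 hi1 hi2]

theorem measure_slice_pos (m : ℕ) :
    μH[((m + 3 : ℕ) : ℝ)] (Pinf m '' {q | q ∈ cubeV m ∧ q 0 = 0}) ≠ 0 := by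
  intro hzero
  have hlip := lip_pr m
  have h1 := hlip.hausdorffMeasure_image_le (d := ((m + 3 : ℕ) : ℝ)) (by positivity)
    (Pinf m '' {q | q ∈ cubeV m ∧ q 0 = 0})
  rw [hzero, mul_zero] at h1
  have h2 : (μH[((m + 3 : ℕ) : ℝ)] : Measure (V m)) = volume := by
    have := hausdorffMeasure_pi_real (ι := Fin (m + 3))
    rw [Fintype.card_fin] at this
    exact this
  rw [h2] at h1
  have h3 := (measure_mono (μ := volume) (Box_subset m)).trans h1
  exact absurd (volume_Box_pos m) (not_lt.mpr h3)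

theorem main (m : ℕ) : ∃ (c : ℝ≥0) (f : Cube (m + 3) ≃ₜ Cube (m + 3)),
    (c : ℝ≥0∞) < μH[((m + 3 : ℕ) : ℝ)] (graph f) ∧
    ∀ ε : ℝ, 0 < ε → ∃ g : Cube (m + 3) ≃ₜ Cube (m + 3),
      (∀ x, dist (f x) (g x) < ε) ∧ μH[((m + 3 : ℕ) : ℝ)] (graph g) ≤ c := by
  obtain ⟨C, hC⟩ := exists_lip_Gm m
  have hcube : ∀ {a b : V m → ℝ} (ha : ShearOK a 2) (hb : ShearOK b 1) (s : Set (V m)),
      μH[((m + 3 : ℕ) : ℝ)] ((fun q => Gm (q, a q, b q)) '' s) ≤
        (C : ℝ≥0∞) ^ (m + 3) * μH[((m + 3 : ℕ) : ℝ)] ((fun q => (q, a q, b q)) '' s) := by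
    intro a b ha hb s
    have h1 : (fun q => Gm (q, a q, b q)) '' s = Gm '' ((fun q => (q, a q, b q)) '' s) := by
      rw [image_image]
    rw [h1]
    have h2 := (hC.mono (s := (fun q => (q, a q, b q)) '' s) ?_).hausdorffMeasure_image_le
      (d := ((m + 3 : ℕ) : ℝ)) (by positivity)
    · rw [ENNReal.rpow_natCast] at h2
      exact h2
    · rintro _ ⟨q, _, rfl⟩
      have h3 := ha.bound q
      have h4 := hb.bound q
      exact ⟨⟨h3.1, h3.2.trans (by norm_num)⟩, ⟨h4.1, h4.2.trans (by norm_num)⟩⟩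
  set A := Pinf m '' {q | q ∈ cubeV m ∧ 0 < q 0} with hA
  set B := Pinf m '' {q | q ∈ cubeV m ∧ q 0 = 0} with hB
  have hAfin : μH[((m + 3 : ℕ) : ℝ)] A ≠ ⊤ := by
    refine ne_top_of_le_ne_top ?_ (hcube (ok_aa0 m) (ok_aa1 m) {q | q ∈ cubeV m ∧ 0 < q 0})
    exact ENNReal.mul_ne_top (by finiteness) (measure_off_slice m).ne
  have hBpos := measure_slice_pos m
  rw [← hB] at hBpos
  have hgraph : graph (F m) = A ∪ B := by
    have h1 : graph (F m) = Pinf m '' cubeV m := graph_fH (ok_aa0 m) (ok_aa1 m)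
    rw [h1, hA, hB, ← image_union]
    congr 1
    ext q
    constructor
    · intro hq
      rcases (hq 0).1.eq_or_lt with h | h
      · exact Or.inr ⟨hq, h.symm⟩
      · exact Or.inl ⟨hq, h⟩
    · rintro (h | h) <;> exact h.1
  have hBm : MeasurableSet B := by
    have hcomp : IsCompact {q : V m | q ∈ cubeV m ∧ q 0 = 0} := by
      have h1 : IsCompact (cubeV m) := by
        have : cubeV m = Set.pi univ fun _ => Icc (0 : ℝ) 1 := by
          ext q
          exact ⟨fun h i _ => h i, fun h i => h i (mem_univ i)⟩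
        rw [this]
        exact isCompact_univ_pi fun _ => isCompact_Icc
      have h2 : {q : V m | q ∈ cubeV m ∧ q 0 = 0} = cubeV m ∩ {q | q 0 = 0} := rfl
      rw [h2]
      exact h1.inter_right (isClosed_eq (continuous_apply 0) continuous_const)
    exact (hcomp.image (continuous_Pinf m)).measurableSet
  have hdisj : Disjoint A B := by
    rw [Set.disjoint_left]
    rintro _ ⟨q, hq, rfl⟩ ⟨q', hq', heq⟩
    have := injective_Pinf m heq
    rw [this] at hq'
    exact hq.2.ne' hq'.2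
  have hsum : μH[((m + 3 : ℕ) : ℝ)] (graph (F m)) =
      μH[((m + 3 : ℕ) : ℝ)] A + μH[((m + 3 : ℕ) : ℝ)] B := by
    rw [hgraph, measure_union hdisj hBm]
  obtain ⟨c, hc1, hc2⟩ := exists_between (ENNReal.lt_add_right hAfin hBpos)
  have hcfin : c ≠ ⊤ := hc2.ne_top
  lift c to ℝ≥0 using hcfin
  refine ⟨c, F m, by rw [hsum]; exact hc2, fun ε hε => ?_⟩
  have hbound : ∀ n, μH[((m + 3 : ℕ) : ℝ)] (graph (Fn m n)) ≤
      μH[((m + 3 : ℕ) : ℝ)] A + (C : ℝ≥0∞) ^ (m + 3) * ENNReal.ofReal ((1 / 2) ^ n) := by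
    intro n
    have h1 : graph (Fn m n) = (fun q => Gm (W m n q)) '' cubeV m :=
      graph_fH (ok_an0 m n) (ok_an1 m n)
    have h2 : (fun q => Gm (W m n q)) '' cubeV m ⊆
        A ∪ (fun q => Gm (W m n q)) '' {q | q ∈ cubeV m ∧ q 0 ∈ Icc 0 (ρs m n)} := by
      rintro _ ⟨q, hq, rfl⟩
      rcases le_total (ρs m n) (q 0) with h | h
      · left
        refine ⟨q, ⟨hq, (ρs_pos m n).trans_le h⟩, ?_⟩
        change Gm (Winf m q) = Gm (W m n q)
        unfold Winf W
        rw [aa_eq_an m 0 n q h, aa_eq_an m 1 n q h]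
      · right
        exact ⟨q, ⟨hq, (hq 0).1, h⟩, rfl⟩
    rw [h1]
    refine (measure_mono h2).trans ((measure_union_le _ _).trans (add_le_add le_rfl ?_))
    refine (hcube (ok_an0 m n) (ok_an1 m n) _).trans ?_
    exact mul_le_mul' le_rfl (measure_thin m n)
  have hlim : Tendsto (fun n : ℕ => μH[((m + 3 : ℕ) : ℝ)] A +
      (C : ℝ≥0∞) ^ (m + 3) * ENNReal.ofReal ((1 / 2) ^ n)) atTop
      (𝓝 (μH[((m + 3 : ℕ) : ℝ)] A)) := by
    have h1 : Tendsto (fun n : ℕ => ENNReal.ofReal ((1 / 2) ^ n)) atTop (𝓝 0) := by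
      have := (ENNReal.continuous_ofReal.tendsto 0).comp
        (tendsto_pow_atTop_nhds_zero_of_lt_one (r := (1 / 2 : ℝ)) (by norm_num) (by norm_num))
      rwa [ENNReal.ofReal_zero] at this
    have h2 := ENNReal.Tendsto.const_mul (a := (C : ℝ≥0∞) ^ (m + 3)) h1
      (Or.inr (by finiteness))
    rw [mul_zero] at h2
    have h3 := h2.const_add (μH[((m + 3 : ℕ) : ℝ)] A)
    rwa [add_zero] at h3
  obtain ⟨n, hn1, hn2⟩ := ((hlim.eventually_lt_const hc1).and (close m ε hε)).exists
  exact ⟨Fn m n, hn2, (hbound n).trans hn1.le⟩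

end Pool.Agent.MP_ccb05f_an
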