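import Pool.Agent.MP_ccb05f_an.Pieces
import Pool.Agent.MP_ccb05f_an.Defs

set_option autoImplicit false

open Real Set MeasureTheory Topology Filter
open scoped ENNReal NNReal

namespace Pool.Agent.MP_ccb05f_an

/-- A one-coordinate shear. -/
noncomputable def sh {m : ℕ} (a : V m → ℝ) (j : Fin (m + 3)) (q : V m) : V m :=
  Function.update q j (q j + a q * tau (q j))

theorem tau_le_left {t : ℝ} (ht : 0 ≤ t) : tau t ≤ 4 * t :=
  max_le (by linarith) ((min_le_right _ _).trans (min_le_left _ _))

theorem tau_le_right {t : ℝ} (ht : t ≤ 1) : tau t ≤ 4 * (1 - t) :=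
  max_le (by linarith) ((min_le_right _ _).trans (min_le_right _ _))

theorem g_mem {a t : ℝ} (ha : a ∈ Icc (0 : ℝ) (1 / 8)) (ht : t ∈ Icc (0 : ℝ) 1) :
    t + a * tau t ∈ Icc (0 : ℝ) 1 := by
  have h1 := tau_nonneg t
  have h2 := tau_le_right ht.2
  constructor
  · have := mul_nonneg ha.1 h1
    linarith [ht.1]
  · have : a * tau t ≤ 1 / 8 * (4 * (1 - t)) :=
      mul_le_mul ha.2 h2 h1 (by norm_num)
    linarith [ht.2]

theorem g_strict {a : ℝ} (ha : a ∈ Icc (0 : ℝ) (1 / 8)) : StrictMono fun t : ℝ => t + a * tau t := by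
  intro t t' h
  have h1 := Lp_tau t t'
  rw [Real.dist_eq, abs_le] at h1
  have h2 : |t - t'| = t' - t := by rw [abs_sub_comm, abs_of_pos (by linarith)]
  rw [h2] at h1
  have h3 : a * (tau t - tau t') ≤ 1 / 8 * (4 * (t' - t)) := by
    calc a * (tau t - tau t') ≤ a * (4 * (t' - t)) := mul_le_mul_of_nonneg_left h1.2 ha.1
      _ ≤ 1 / 8 * (4 * (t' - t)) := mul_le_mul_of_nonneg_right ha.2 (by linarith)
  simp only
  nlinarith

theorem continuous_tau : Continuous tau := Lp_tau.continuous

/-- Hypotheses on a shear function. -/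
structure ShearOK {m : ℕ} (a : V m → ℝ) (j : Fin (m + 3)) : Prop where
  cont : Continuous a
  bound : ∀ q, a q ∈ Icc (0 : ℝ) (1 / 8)
  indep : ∀ q t, a (Function.update q j t) = a q

variable {m : ℕ}

theorem sh_mem {a : V m → ℝ} {j : Fin (m + 3)} (h : ShearOK a j) {q : V m} (hq : q ∈ cubeV m) :
    sh a j q ∈ cubeV m := by
  intro i
  unfold sh
  by_cases hi : i = j
  · subst hi
    rw [Function.update_self]
    exact g_mem (h.bound q) (hq i)
  · rw [Function.update_of_ne hi]
    exact hq i

theorem sh_injective {a : V m → ℝ} {j : Fin (m + 3)} (h : ShearOK a j) :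
    Function.Injective (sh a j) := by
  intro q q' heq
  have h1 : ∀ i, i ≠ j → q i = q' i := by
    intro i hi
    have := congrFun heq i
    unfold sh at this
    rwa [Function.update_of_ne hi, Function.update_of_ne hi] at this
  have h2 : q = Function.update q' j (q j) := by
    funext i
    by_cases hi : i = j
    · subst hi; rw [Function.update_self]
    · rw [Function.update_of_ne hi]; exact h1 i hi
  have h3 : a q = a q' := by rw [h2, h.indep]
  have h4 := congrFun heq j
  unfold sh at h4
  rw [Function.update_self, Function.update_self, h3] at h4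
  have h5 : q j = q' j := (g_strict (h.bound q')).injective h4
  funext i
  by_cases hi : i = j
  · rw [hi]; exact h5
  · exact h1 i hi

theorem sh_surj {a : V m → ℝ} {j : Fin (m + 3)} (h : ShearOK a j) {p : V m}
    (hp : p ∈ cubeV m) : ∃ q ∈ cubeV m, sh a j q = p := by
  have hc : ContinuousOn (fun t : ℝ => t + a p * tau t) (Icc 0 1) :=
    (continuous_id.add (continuous_const.mul continuous_tau)).continuousOn
  have h0 : (0 : ℝ) + a p * tau 0 = 0 := by simp [tau_zero]
  have h1 : (1 : ℝ) + a p * tau 1 = 1 := by simp [tau_one]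
  have := intermediate_value_Icc zero_le_one hc
  simp only [h0, h1] at this
  obtain ⟨t, ht, hpt⟩ := this (hp j)
  refine ⟨Function.update p j t, ?_, ?_⟩
  · intro i
    by_cases hi : i = j
    · subst hi; rw [Function.update_self]; exact ht
    · rw [Function.update_of_ne hi]; exact hp i
  · unfold sh
    rw [h.indep, Function.update_self, Function.update_idem]
    have : t + a p * tau t = p j := hpt
    rw [this, Function.update_eq_self]

theorem continuous_sh {a : V m → ℝ} {j : Fin (m + 3)} (h : ShearOK a j) :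
    Continuous (sh a j) := by
  have h1 := h.cont
  have h2 := continuous_tau
  exact continuous_id.update j ((continuous_apply j).add (h1.mul (h2.comp (continuous_apply j))))

theorem mem_Cube_iff {d : ℕ} (x : EuclideanSpace ℝ (Fin d)) :
    x ∈ Cube d ↔ ∀ i, x i ∈ Icc (0 : ℝ) 1 := Iff.rfl

theorem isCompact_Cube (d : ℕ) : IsCompact (Cube d) := by
  have h : Cube d = WithLp.toLp 2 '' (Set.pi univ fun _ : Fin d => Icc (0 : ℝ) 1) := by
    ext x
    constructor
    · intro hx
      exact ⟨x.ofLp, fun i _ => hx i, rfl⟩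
    · rintro ⟨q, hq, rfl⟩ i
      exact hq i (mem_univ i)
  rw [h]
  exact (isCompact_univ_pi fun _ => isCompact_Icc).image (PiLp.continuous_toLp 2 _)

instance (d : ℕ) : CompactSpace (Cube d) := isCompact_iff_compactSpace.mp (isCompact_Cube d)

/-- The shear as a self-map of the cube. -/
noncomputable def shC {a : V m → ℝ} {j : Fin (m + 3)} (h : ShearOK a j)
    (x : Cube (m + 3)) : Cube (m + 3) :=
  ⟨WithLp.toLp 2 (sh a j x.1.ofLp), fun i => sh_mem h (fun i => x.2 i) i⟩

theorem bijective_shC {a : V m → ℝ} {j : Fin (m + 3)} (h : ShearOK a j) :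
    Function.Bijective (shC h) := by
  constructor
  · intro x y hxy
    have h1 := congrArg (fun z : Cube (m + 3) => z.1.ofLp) hxy
    have h2 : x.1.ofLp = y.1.ofLp := sh_injective h h1
    exact Subtype.ext (WithLp.ofLp_injective 2 h2)
  · intro y
    obtain ⟨q, hq, hqy⟩ := sh_surj h (p := y.1.ofLp) (fun i => y.2 i)
    refine ⟨⟨WithLp.toLp 2 q, fun i => hq i⟩, ?_⟩
    apply Subtype.ext
    change WithLp.toLp 2 (sh a j q) = y.1
    rw [hqy]

theorem continuous_shC {a : V m → ℝ} {j : Fin (m + 3)} (h : ShearOK a j) :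
    Continuous (shC h) := by
  refine Continuous.subtype_mk ?_ _
  exact (PiLp.continuous_toLp 2 _).comp ((continuous_sh h).comp
    ((PiLp.continuous_ofLp 2 _).comp continuous_subtype_val))

/-- The shear as a homeomorphism of the cube. -/
noncomputable def shH {a : V m → ℝ} {j : Fin (m + 3)} (h : ShearOK a j) :
    Cube (m + 3) ≃ₜ Cube (m + 3) :=
  Continuous.homeoOfEquivCompactToT2 (f := Equiv.ofBijective (shC h) (bijective_shC h))
    (continuous_shC h)

theorem shH_apply {a : V m → ℝ} {j : Fin (m + 3)} (h : ShearOK a j) (x : Cube (m + 3)) :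
    shH h x = shC h x := rfl

/-- The homeomorphism attached to two shear functions. -/
noncomputable def fH {a b : V m → ℝ} (ha : ShearOK a 2) (hb : ShearOK b 1) :
    Cube (m + 3) ≃ₜ Cube (m + 3) := (shH ha).symm.trans (shH hb)

/-- The graph map. -/
noncomputable def Gm (z : V m × ℝ × ℝ) :
    WithLp 2 (EuclideanSpace ℝ (Fin (m + 3)) × EuclideanSpace ℝ (Fin (m + 3))) :=
  WithLp.toLp 2 (WithLp.toLp 2 (Function.update z.1 2 (z.1 2 + z.2.1 * tau (z.1 2))),
    WithLp.toLp 2 (Function.update z.1 1 (z.1 1 + z.2.2 * tau (z.1 1))))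

theorem graph_fH {a b : V m → ℝ} (ha : ShearOK a 2) (hb : ShearOK b 1) :
    graph (fH ha hb) = (fun q => Gm (q, a q, b q)) '' cubeV m := by
  ext p
  constructor
  · rintro ⟨x, rfl⟩
    let y := (shH ha).symm x
    have hxy : shC ha y = x := by
      rw [← shH_apply]; exact (shH ha).apply_symm_apply x
    refine ⟨y.1.ofLp, fun i => y.2 i, ?_⟩
    have h1 : ((fH ha hb) x : EuclideanSpace ℝ (Fin (m + 3))) = (shC hb y).1 := rfl
    simp only
    rw [h1]
    conv_rhs => rw [← hxy]
    rfl
  · rintro ⟨q, hq, rfl⟩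
    let y : Cube (m + 3) := ⟨WithLp.toLp 2 q, fun i => hq i⟩
    refine ⟨shC ha y, ?_⟩
    have h2 : (shH ha).symm (shC ha y) = y := by
      rw [← shH_apply]; exact (shH ha).symm_apply_apply y
    have h1 : ((fH ha hb) (shC ha y) : EuclideanSpace ℝ (Fin (m + 3))) = (shC hb y).1 := by
      change (shH hb ((shH ha).symm (shC ha y))).1 = _
      rw [h2, shH_apply]
    simp only
    rw [h1]
    rfl

/-! ### The shear functions -/

theorem indep_w (m k : ℕ) (j : Fin (m + 3)) (h0 : j ≠ 0) (hj : j ≠ cc m k) (q : V m) (t : ℝ) :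
    w m k (Function.update q j t) = w m k q := by
  unfold w
  rw [Function.update_of_ne h0.symm, Function.update_of_ne hj.symm]

theorem indep_term (m k : ℕ) (q : V m) (t : ℝ) :
    sel 0 k * w m k (Function.update q 2 t) = sel 0 k * w m k q ∧
    sel 1 k * w m k (Function.update q 1 t) = sel 1 k * w m k q := by
  constructor
  · by_cases hk : k % 2 = 0
    · rw [indep_w m k 2 (two_ne_zero' m)]
      unfold cc
      rw [if_pos hk]
      exact (one_ne_two' m).symm
    · simp [sel, hk]
  · by_cases hk : k % 2 = 1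
    · rw [indep_w m k 1 (one_ne_zero' m)]
      unfold cc
      rw [if_neg (by omega)]
      exact one_ne_two' m
    · simp [sel, hk]

theorem ok_an0 (m n : ℕ) : ShearOK (an m 0 n) 2 where
  cont := (Lp_an m 0 n).continuous
  bound q := ⟨an_nonneg m 0 n q, an_le m 0 n q⟩
  indep q t := Finset.sum_congr rfl fun k _ => (indep_term m k q t).1

theorem ok_an1 (m n : ℕ) : ShearOK (an m 1 n) 1 where
  cont := (Lp_an m 1 n).continuous
  bound q := ⟨an_nonneg m 1 n q, an_le m 1 n q⟩
  indep q t := Finset.sum_congr rfl fun k _ => (indep_term m k q t).2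

theorem continuous_aa (m s : ℕ) : Continuous (aa m s) :=
  (tendstoUniformly_an m s).continuous (Frequently.of_forall fun n => (Lp_an m s n).continuous)

theorem ok_aa0 (m : ℕ) : ShearOK (aa m 0) 2 where
  cont := continuous_aa m 0
  bound q := ⟨aa_nonneg m 0 q, aa_le m 0 q⟩
  indep q t := tsum_congr fun k => (indep_term m k q t).1

theorem ok_aa1 (m : ℕ) : ShearOK (aa m 1) 1 where
  cont := continuous_aa m 1
  bound q := ⟨aa_nonneg m 1 q, aa_le m 1 q⟩
  indep q t := tsum_congr fun k => (indep_term m k q t).2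

/-- The limit homeomorphism. -/
noncomputable def F (m : ℕ) : Cube (m + 3) ≃ₜ Cube (m + 3) := fH (ok_aa0 m) (ok_aa1 m)

/-- The approximating homeomorphisms. -/
noncomputable def Fn (m n : ℕ) : Cube (m + 3) ≃ₜ Cube (m + 3) := fH (ok_an0 m n) (ok_an1 m n)

/-! ### Uniform convergence -/

theorem unif_comp {K : Type*} [MetricSpace K] [CompactSpace K] {S1n S2n : ℕ → K ≃ₜ K}
    {S1 S2 : K ≃ₜ K} (h1 : TendstoUniformly (fun n x => S1n n x) S1 atTop)
    (h2 : TendstoUniformly (fun n x => S2n n x) S2 atTop) (ε : ℝ) (hε : 0 < ε) :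
    ∀ᶠ n in atTop, ∀ x, dist ((S1.symm.trans S2) x) (((S1n n).symm.trans (S2n n)) x) < ε := by
  have u2 : UniformContinuous S2 := CompactSpace.uniformContinuous_of_continuous S2.continuous
  have u1 : UniformContinuous S1.symm :=
    CompactSpace.uniformContinuous_of_continuous S1.symm.continuous
  obtain ⟨δ, hδ, hδ2⟩ := Metric.uniformContinuous_iff.mp u2 (ε / 2) (by positivity)
  obtain ⟨η, hη, hη2⟩ := Metric.uniformContinuous_iff.mp u1 δ hδ
  filter_upwards [Metric.tendstoUniformly_iff.mp h1 η hη,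
    Metric.tendstoUniformly_iff.mp h2 (ε / 2) (by positivity)] with n hn1 hn2 x
  set q := (S1n n).symm x with hq
  have hx : S1n n q = x := (S1n n).apply_symm_apply x
  have e1 : dist (S1.symm x) q < δ := by
    have h3 : dist x (S1 q) < η := by
      rw [← hx, dist_comm]; exact hn1 q
    have h4 := hη2 h3
    rwa [S1.symm_apply_apply] at h4
  have e2 : dist (S2 (S1.symm x)) (S2 q) < ε / 2 := hδ2 e1
  have e3 : dist (S2 q) (S2n n q) < ε / 2 := hn2 q
  change dist (S2 (S1.symm x)) (S2n n q) < ε
  linarith [dist_triangle (S2 (S1.symm x)) (S2 q) (S2n n q)]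

theorem tendstoUniformly_shH {an : ℕ → V m → ℝ} {a : V m → ℝ} {j : Fin (m + 3)}
    (hn : ∀ n, ShearOK (an n) j) (h : ShearOK a j) (hu : TendstoUniformly an a atTop) :
    TendstoUniformly (fun n x => shH (hn n) x) (shH h) atTop := by
  have h1 : TendstoUniformly (fun n q => sh (an n) j q) (sh a j) atTop := by
    rw [Metric.tendstoUniformly_iff] at hu ⊢
    intro ε hε
    filter_upwards [hu ε hε] with n hnn q
    unfold sh
    rw [dist_pi_lt_iff hε]
    intro i
    by_cases hi : i = j
    · subst hi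
      rw [Function.update_self, Function.update_self, Real.dist_eq]
      have e : q i + a q * tau (q i) - (q i + an n q * tau (q i)) =
        (a q - an n q) * tau (q i) := by ring
      rw [e, abs_mul, abs_of_nonneg (tau_nonneg _), ← Real.dist_eq]
      have h2 := hnn q
      have h3 := tau_le_one (q i)
      have h4 := tau_nonneg (q i)
      have h5 : 0 ≤ dist (a q) (an n q) := dist_nonneg
      nlinarith
    · rw [Function.update_of_ne hi, Function.update_of_ne hi, dist_self]
      exact hε
  have h2 : TendstoUniformly (fun n (x : Cube (m + 3)) => sh (an n) j x.1.ofLp)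
      (fun x => sh a j x.1.ofLp) atTop := h1.comp (fun x : Cube (m + 3) => x.1.ofLp)
  have h3 := (PiLp.uniformContinuous_toLp 2 (fun _ : Fin (m + 3) => ℝ)).comp_tendstoUniformly h2
  rw [Metric.tendstoUniformly_iff] at h3 ⊢
  exact h3

theorem close (m : ℕ) (ε : ℝ) (hε : 0 < ε) :
    ∀ᶠ n in atTop, ∀ x, dist (F m x) (Fn m n x) < ε :=
  unif_comp (tendstoUniformly_shH (ok_an0 m) (ok_aa0 m) (tendstoUniformly_an m 0))
    (tendstoUniformly_shH (ok_an1 m) (ok_aa1 m) (tendstoUniformly_an m 1)) ε hε

end Pool.Agent.MP_ccb05f_an
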