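import Pool.Agent.MP_ccb05f_an.Construct

set_option autoImplicit false

open Real Set MeasureTheory Topology Filter
open scoped ENNReal NNReal

namespace Pool.Agent.MP_ccb05f_an

theorem Lp_div {α : Type*} [PseudoMetricSpace α] {f : α → ℝ} {c : ℝ} (hc : 0 < c) (hf : Lp 1 f) :
    Lp (1 / c) (fun q => 1 - f q / c) := fun p q => by
  have : 1 - f p / c - (1 - f q / c) = -((f p - f q) / c) := by ring
  rw [this, abs_neg, abs_div, abs_of_pos hc, one_div_mul_eq_div]
  exact div_le_div_of_nonneg_right ((hf p q).trans_eq (one_mul _)) hc.le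

theorem Lp_infDist_coord {m : ℕ} (S : Set ℝ) (c : Fin (m + 3)) :
    Lp 1 (fun q : V m => Metric.infDist (q c) S) := fun p q => by
  have h1 := Lp_infDist S (p c) (q c)
  rw [one_mul] at h1 ⊢
  exact h1.trans (dist_le_pi_dist p q c)

theorem Lp_w (m k : ℕ) : Lp (1 / δs m k + 1 / ρs m k) (w m k) := by
  have hδ := δs_pos m k
  have hρ := ρs_pos m k
  have hδ' : 0 < 1 / δs m k := by positivity
  have hρ' : 0 < 1 / ρs m k := by positivity
  have h1 : Lp (1 / δs m k + 1 / ρs m k)
      (fun q : V m => phi (δs m k) (ρs m k) (St k) (q 0) (q (cc m k))) := by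
    refine ((Lp.const 0).mono (by positivity)).max (Lp.min ?_ ?_)
    · exact (Lp_div hρ (Lp_coord 0)).mono (by linarith)
    · exact (Lp_div hδ (Lp_infDist_coord (St k) (cc m k))).mono (by linarith)
  refine (h1.const_mul (lam k)).mono ?_
  rw [abs_of_pos (lam_pos k)]
  have := lam_le_one k
  nlinarith [lam_pos k]

theorem Lp_sel {α : Type*} [PseudoMetricSpace α] {f : α → ℝ} {L : ℝ} (hL : 0 ≤ L) (s k : ℕ)
    (hf : Lp L f) : Lp L (fun q => sel s k * f q) := by
  refine (hf.const_mul (sel s k)).mono ?_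
  have := abs_sel_le s k
  nlinarith [abs_nonneg (sel s k)]

theorem Lp_an (m s n : ℕ) : Lp (Ls m n) (an m s n) := by
  induction n with
  | zero =>
    intro p q
    have := one_le_Ls m 0
    simp only [an, Finset.range_zero, Finset.sum_empty, sub_self, abs_zero]
    positivity
  | succ n ih =>
    have h : an m s (n + 1) = fun q => an m s n q + sel s n * w m n q := by
      funext q; exact an_succ m s n q
    rw [h, Ls_succ, add_assoc]
    refine ih.add (Lp_sel ?_ s n (Lp_w m n))
    have := δs_pos m n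
    have := ρs_pos m n
    positivity

/-- The parameter map of stage `n`. -/
noncomputable def W (m n : ℕ) (q : V m) : V m × ℝ × ℝ := (q, an m 0 n q, an m 1 n q)

/-- The limit parameter map. -/
noncomputable def Winf (m : ℕ) (q : V m) : V m × ℝ × ℝ := (q, aa m 0 q, aa m 1 q)

theorem dist_triple_le {m : ℕ} {r : V m → V m} {A B : V m → ℝ} {L : ℝ}
    (hr : ∀ p q, dist (r p) (r q) ≤ L * dist p q) (hA : Lp L A) (hB : Lp L B) (p q : V m) :
    dist ((r p, A p, B p) : V m × ℝ × ℝ) (r q, A q, B q) ≤ L * dist p q := by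
  rw [Prod.dist_eq, Prod.dist_eq]
  refine max_le (hr p q) (max_le ?_ ?_)
  · rw [Real.dist_eq]; exact hA p q
  · rw [Real.dist_eq]; exact hB p q

theorem dist_W (m n : ℕ) (p q : V m) : dist (W m n p) (W m n q) ≤ Ls m n * dist p q :=
  dist_triple_le (r := id) (fun p q => by
    have := one_le_Ls m n
    have h := dist_nonneg (x := p) (y := q)
    simp only [id]
    nlinarith) (Lp_an m 0 n) (Lp_an m 1 n) p q

/-- The profile on the second piece. -/
noncomputable def psi (m n : ℕ) (q : V m) : ℝ :=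
  lam n * max 0 (1 - Metric.infDist (q (cc m n)) (St n) / δs m n)

theorem Lp_psi (m n : ℕ) : Lp (1 / δs m n) (psi m n) := by
  have hδ := δs_pos m n
  have hδ' : 0 < 1 / δs m n := by positivity
  have h1 : Lp (1 / δs m n)
      (fun q : V m => max 0 (1 - Metric.infDist (q (cc m n)) (St n) / δs m n)) :=
    ((Lp.const 0).mono (by positivity)).max (Lp_div hδ (Lp_infDist_coord (St n) (cc m n)))
  refine (h1.const_mul (lam n)).mono ?_
  rw [abs_of_pos (lam_pos n)]
  have := lam_le_one n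
  nlinarith [lam_pos n]

noncomputable def WD (m n : ℕ) (q : V m) : V m × ℝ × ℝ :=
  (q, an m 0 n q + sel 0 n * psi m n q, an m 1 n q + sel 1 n * psi m n q)

theorem dist_WD (m n : ℕ) (p q : V m) :
    dist (WD m n p) (WD m n q) ≤ (Ls m n + 1 / δs m n) * dist p q := by
  have hδ := δs_pos m n
  have hδ' : 0 < 1 / δs m n := by positivity
  exact dist_triple_le (r := id) (fun p q => by
    have := one_le_Ls m n
    have h := dist_nonneg (x := p) (y := q)
    simp only [id]
    nlinarith) ((Lp_an m 0 n).add (Lp_sel hδ'.le 0 n (Lp_psi m n)))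
    ((Lp_an m 1 n).add (Lp_sel hδ'.le 1 n (Lp_psi m n))) p q

/-- Reparametrisation of the transversal variable. -/
noncomputable def rr (m n : ℕ) (p : V m) : V m := Function.update p 0 (ρs m n * (1 - p 0))

theorem dist_rr (m n : ℕ) (p q : V m) : dist (rr m n p) (rr m n q) ≤ 1 * dist p q := by
  rw [one_mul, dist_pi_le_iff dist_nonneg]
  intro i
  unfold rr
  by_cases hi : i = 0
  · subst hi
    rw [Function.update_self, Function.update_self, Real.dist_eq]
    have h1 : ρs m n * (1 - p 0) - ρs m n * (1 - q 0) = -(ρs m n * (p 0 - q 0)) := by ring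
    rw [h1, abs_neg, abs_mul, abs_of_pos (ρs_pos m n), ← Real.dist_eq]
    have h2 := dist_le_pi_dist p q 0
    have h3 := ρs_le_one m n
    have h4 : 0 ≤ dist (p 0) (q 0) := dist_nonneg
    nlinarith [ρs_pos m n]
  · rw [Function.update_of_ne hi, Function.update_of_ne hi]
    exact dist_le_pi_dist p q i

noncomputable def WB (m n : ℕ) (p : V m) : V m × ℝ × ℝ :=
  (rr m n p, an m 0 n (rr m n p) + sel 0 n * (lam n * p 0),
    an m 1 n (rr m n p) + sel 1 n * (lam n * p 0))

theorem dist_WB (m n : ℕ) (p q : V m) :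
    dist (WB m n p) (WB m n q) ≤ (Ls m n + 1) * dist p q := by
  have hL := one_le_Ls m n
  have h1 : Lp 1 (fun p : V m => lam n * p 0) := by
    refine ((Lp_coord (0 : Fin (m + 3))).const_mul (lam n)).mono ?_
    rw [abs_of_pos (lam_pos n), mul_one]
    exact lam_le_one n
  have h2 : ∀ s, Lp (Ls m n + 1) (fun p : V m => an m s n (rr m n p) + sel s n * (lam n * p 0)) :=
    fun s => by
      have := Lp.comp (by linarith) (Lp_an m s n) (dist_rr m n)
      rw [mul_one] at this
      exact this.add (Lp_sel zero_le_one s n h1)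
  exact dist_triple_le (fun p q => by
    refine (dist_rr m n p q).trans ?_
    have h := dist_nonneg (x := p) (y := q)
    nlinarith) (h2 0) (h2 1) p q

theorem two_ne_zero' (m : ℕ) : (2 : Fin (m + 3)) ≠ 0 := by
  intro h
  have h2 : ((2 : Fin (m + 3)) : ℕ) = 2 := Fin.val_two
  rw [h] at h2
  simp at h2

theorem one_ne_two' (m : ℕ) : (1 : Fin (m + 3)) ≠ 2 := by
  intro h
  have h2 : ((2 : Fin (m + 3)) : ℕ) = 2 := Fin.val_two
  rw [← h] at h2
  simp at h2

theorem one_ne_zero' (m : ℕ) : (1 : Fin (m + 3)) ≠ 0 := by simp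

theorem cc_ne_zero (m k : ℕ) : cc m k ≠ 0 := by
  unfold cc
  split_ifs
  · exact one_ne_zero' m
  · exact two_ne_zero' m

theorem W_succ_eq (m n : ℕ) (q : V m) : W m (n + 1) q =
    (q, an m 0 n q + sel 0 n * w m n q, an m 1 n q + sel 1 n * w m n q) := by
  unfold W
  rw [an_succ, an_succ]

theorem image_subset (m n : ℕ) :
    W m (n + 1) '' {q | q ∈ cubeV m ∧ q 0 ∈ Iio (ρs m n)} ⊆
      W m n '' {q | q ∈ cubeV m ∧ q 0 ∈ Icc 0 (ρs m n)} ∪
      WD m n '' {q | q ∈ cubeV m ∧ q 0 ∈ Icc 0 (ρs m n)} ∪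
      WB m n '' {q | q ∈ cubeV m ∧ q (cc m n) ∈ Metric.thickening (δs m n) (St n)} := by
  rintro _ ⟨q, ⟨hq, hq0⟩, rfl⟩
  have hδ := δs_pos m n
  have hρ := ρs_pos m n
  rw [mem_Iio] at hq0
  have hq00 : q 0 ∈ Icc 0 (ρs m n) := ⟨(hq 0).1, hq0.le⟩
  set x1 := 1 - q 0 / ρs m n with hx1
  set x2 := 1 - Metric.infDist (q (cc m n)) (St n) / δs m n with hx2
  have hx1pos : 0 < x1 := by
    have : q 0 / ρs m n < 1 := by rwa [div_lt_one hρ]
    linarith
  have hx1le : x1 ≤ 1 := by
    have : 0 ≤ q 0 / ρs m n := div_nonneg hq00.1 hρ.le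
    linarith
  have hw : w m n q = lam n * max 0 (min x1 x2) := rfl
  rw [W_succ_eq]
  rcases le_or_gt x2 0 with h2 | h2
  · left; left
    refine ⟨q, ⟨hq, hq00⟩, ?_⟩
    rw [hw, max_eq_left ((min_le_right _ _).trans h2)]
    simp [W]
  · rcases le_or_gt x2 x1 with h3 | h3
    · left; right
      refine ⟨q, ⟨hq, hq00⟩, ?_⟩
      rw [hw, min_eq_right h3]
      rfl
    · right
      refine ⟨Function.update q 0 x1, ⟨?_, ?_⟩, ?_⟩
      · intro i
        by_cases hi : i = 0
        · subst hi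
          rw [Function.update_self]
          exact ⟨hx1pos.le, hx1le⟩
        · rw [Function.update_of_ne hi]
          exact hq i
      · rw [Function.update_of_ne (cc_ne_zero m n)]
        rw [Metric.mem_thickening_iff, ← Metric.infDist_lt_iff (nonempty_St n)]
        have h4 : Metric.infDist (q (cc m n)) (St n) / δs m n < 1 := by linarith
        rwa [div_lt_one hδ] at h4
      · have hr : rr m n (Function.update q 0 x1) = q := by
          unfold rr
          rw [Function.update_self, Function.update_idem]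
          have : ρs m n * (1 - x1) = q 0 := by
            rw [hx1]; field_simp; ring
          rw [this, Function.update_eq_self]
        unfold WB
        rw [hr, Function.update_self, hw, min_eq_left h3.le, max_eq_right hx1pos.le]

theorem measure_stage (m n : ℕ) :
    μH[((m + 3 : ℕ) : ℝ)] (W m (n + 1) '' {q | q ∈ cubeV m ∧ q 0 ∈ Iio (ρs m n)}) ≤
      3 * ENNReal.ofReal ((1 / 2) ^ n) := by
  have hρ := ρs_pos m n
  have hδ := δs_pos m n
  have hL := one_le_Ls m n
  have hδ' : 0 < 1 / δs m n := by positivity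
  refine (measure_mono (image_subset m n)).trans ?_
  refine (measure_union_le _ _).trans ?_
  refine (add_le_add (measure_union_le _ _) le_rfl).trans ?_
  have hD : μH[((m + 3 : ℕ) : ℝ)] (WD m n '' {q | q ∈ cubeV m ∧ q 0 ∈ Icc 0 (ρs m n)}) ≤
      ENNReal.ofReal ((1 / 2) ^ n) := by
    refine (cost (WD m n) (dist_WD m n) 0 (Icc 0 (ρs m n))).trans ?_
    rw [Real.volume_Icc, sub_zero, ← ENNReal.ofReal_pow (by positivity),
      ← ENNReal.ofReal_mul (by positivity)]
    exact ENNReal.ofReal_le_ofReal (cond_rho m n)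
  have hA : μH[((m + 3 : ℕ) : ℝ)] (W m n '' {q | q ∈ cubeV m ∧ q 0 ∈ Icc 0 (ρs m n)}) ≤
      ENNReal.ofReal ((1 / 2) ^ n) := by
    refine (cost (W m n) (dist_W m n) 0 (Icc 0 (ρs m n))).trans ?_
    rw [Real.volume_Icc, sub_zero, ← ENNReal.ofReal_pow (by positivity),
      ← ENNReal.ofReal_mul (by positivity)]
    refine ENNReal.ofReal_le_ofReal (le_trans ?_ (cond_rho m n))
    gcongr
    linarith
  have hB : μH[((m + 3 : ℕ) : ℝ)] (WB m n ''
      {q | q ∈ cubeV m ∧ q (cc m n) ∈ Metric.thickening (δs m n) (St n)}) ≤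
      ENNReal.ofReal ((1 / 2) ^ n) :=
    (cost (WB m n) (dist_WB m n) (cc m n) _).trans (cond_th m n)
  calc _ ≤ ENNReal.ofReal ((1 / 2) ^ n) + ENNReal.ofReal ((1 / 2) ^ n) +
        ENNReal.ofReal ((1 / 2) ^ n) := add_le_add (add_le_add hA hD) hB
    _ = 3 * ENNReal.ofReal ((1 / 2) ^ n) := by ring

theorem measure_thin (m n : ℕ) :
    μH[((m + 3 : ℕ) : ℝ)] (W m n '' {q | q ∈ cubeV m ∧ q 0 ∈ Icc 0 (ρs m n)}) ≤
      ENNReal.ofReal ((1 / 2) ^ n) := by
  have hρ := ρs_pos m n
  have hδ := δs_pos m n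
  have hL := one_le_Ls m n
  have hδ' : 0 < 1 / δs m n := by positivity
  refine (cost (W m n) (dist_W m n) 0 (Icc 0 (ρs m n))).trans ?_
  rw [Real.volume_Icc, sub_zero, ← ENNReal.ofReal_pow (by positivity),
    ← ENNReal.ofReal_mul (by positivity)]
  refine ENNReal.ofReal_le_ofReal (le_trans ?_ (cond_rho m n))
  gcongr
  linarith

theorem tendsto_ρs (m : ℕ) : Tendsto (ρs m) atTop (𝓝 0) :=
  squeeze_zero (fun n => (ρs_pos m n).le) (ρs_le_pow m)
    (tendsto_pow_atTop_nhds_zero_of_lt_one (by norm_num) (by norm_num))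

theorem measure_off_slice (m : ℕ) :
    μH[((m + 3 : ℕ) : ℝ)] (Winf m '' {q | q ∈ cubeV m ∧ 0 < q 0}) < ⊤ := by
  have hsub : Winf m '' {q | q ∈ cubeV m ∧ 0 < q 0} ⊆
      W m 0 '' {q | q ∈ cubeV m ∧ q 0 ∈ Icc (0 : ℝ) 1} ∪
      ⋃ n, W m (n + 1) '' {q | q ∈ cubeV m ∧ q 0 ∈ Iio (ρs m n)} := by
    rintro _ ⟨q, ⟨hq, hq0⟩, rfl⟩
    have hex : ∃ n, ρs m n ≤ q 0 := by
      obtain ⟨n, hn⟩ := ((tendsto_ρs m).eventually_le_const hq0).exists
      exact ⟨n, hn⟩
    classical
    have hn := Nat.find_spec hex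
    set N := Nat.find hex with hN
    have hWeq : Winf m q = W m N q := by
      unfold Winf W
      rw [aa_eq_an m 0 N q hn, aa_eq_an m 1 N q hn]
    rcases Nat.eq_zero_or_pos N with h0 | hpos
    · left
      rw [hWeq, h0]
      exact ⟨q, ⟨hq, hq 0⟩, rfl⟩
    · right
      obtain ⟨k, hk⟩ : ∃ k, N = k + 1 := ⟨N - 1, by omega⟩
      have hlt : q 0 < ρs m k := by
        have := Nat.find_min hex (show k < Nat.find hex by omega)
        exact not_le.mp this
      rw [mem_iUnion]
      exact ⟨k, q, ⟨hq, hlt⟩, by rw [hWeq, hk]⟩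
  refine (measure_mono hsub).trans_lt ?_
  refine (measure_union_le _ _).trans_lt (ENNReal.add_lt_top.mpr ⟨?_, ?_⟩)
  · refine (cost (W m 0) (dist_W m 0) 0 (Icc 0 1)).trans_lt ?_
    rw [Real.volume_Icc]
    finiteness
  · refine (measure_iUnion_le _).trans_lt ?_
    refine (ENNReal.tsum_le_tsum (measure_stage m)).trans_lt ?_
    rw [ENNReal.tsum_mul_left]
    refine ENNReal.mul_lt_top (by norm_num) ?_
    rw [← ENNReal.ofReal_tsum_of_nonneg (fun n => by positivity)
      (summable_geometric_of_lt_one (by norm_num) (by norm_num))]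
    exact ENNReal.ofReal_lt_top

end Pool.Agent.MP_ccb05f_an
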